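import Pool.Agent.H66.KS.Main

/-! # Rotations in two planes -/

set_option autoImplicit false

namespace Pool.Agent.H66.KS

open Finset Pool.Agent.H16.KISS

/-- exchange of the two planes -/
noncomputable def swap (x : E5) : E5 := !₂[x 2, x 3, x 0, x 1, x 4]

theorem swap_swap (x : E5) : swap (swap x) = x := ext5 rfl rfl rfl rfl rfl

theorem swap_inj {x y : E5} (h : swap x = swap y) : x = y := by
  rw [← swap_swap x, h, swap_swap]

theorem rot_swap (α β : ℝ) (x : E5) : rot β α (swap x) = swap (rot α β x) :=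
  ext5 rfl rfl rfl rfl rfl

theorem ip_swap (x y : E5) : ip (swap x) (swap y) = ip x y := by
  unfold ip
  rw [Fin.sum_univ_five, Fin.sum_univ_five]
  show x 2 * y 2 + x 3 * y 3 + x 0 * y 0 + x 1 * y 1 + x 4 * y 4 = _
  ring

/-- fixed points of a rotation in both planes -/
theorem card_poles {A : Finset E5} (h1 : ∀ x ∈ A, ip x x = 1)
    (h0 : ∀ x ∈ A, x 0 = 0 ∧ x 1 = 0 ∧ x 2 = 0 ∧ x 3 = 0) : A.card ≤ 2 := by
  classical
  have hsub : A.image (fun x : E5 => x 4) ⊆ {1, -1} := by
    intro t ht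
    obtain ⟨x, hx, rfl⟩ := Finset.mem_image.mp ht
    have hxx := h1 x hx
    obtain ⟨a, b, c, d⟩ := h0 x hx
    unfold ip at hxx
    rw [Fin.sum_univ_five, a, b, c, d] at hxx
    have : (x 4 - 1) * (x 4 + 1) = 0 := by linarith
    rcases mul_eq_zero.mp this with h | h
    · simp; left; linarith
    · simp; right; linarith
  have hinj : Set.InjOn (fun x : E5 => x 4) (A : Set E5) := by
    intro x hx y hy hxy
    obtain ⟨a, b, c, d⟩ := h0 x hx
    obtain ⟨a', b', c', d'⟩ := h0 y hy
    exact ext5 (a.trans a'.symm) (b.trans b'.symm) (c.trans c'.symm) (d.trans d'.symm) hxy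
  rw [← Finset.card_image_of_injOn hinj]
  exact (Finset.card_le_card hsub).trans Finset.card_le_two

/-- the number of points is congruent to the number of fixed points -/
theorem card_mod {A : Finset E5} {p : ℕ} (hp : p.Prime) {a b : ℤ}
    (hA : ∀ x ∈ A, rot (2 * Real.pi * a / p) (2 * Real.pi * b / p) x ∈ A) (B : Finset E5)
    (hB : ∀ x, x ∈ B ↔ x ∈ A ∧ rot (2 * Real.pi * a / p) (2 * Real.pi * b / p) x = x) :
    A.card ≡ B.card [MOD p] := by
  classical
  haveI : Fact p.Prime := ⟨hp⟩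
  obtain ⟨α, hα⟩ : ∃ α, α = 2 * Real.pi * a / p := ⟨_, rfl⟩
  obtain ⟨β, hβ⟩ : ∃ β, β = 2 * Real.pi * b / p := ⟨_, rfl⟩
  have hpr : (p : ℝ) ≠ 0 := by exact_mod_cast hp.ne_zero
  have cα : Real.cos (p * α) = 1 := by
    rw [Real.cos_eq_one_iff]
    exact ⟨a, by rw [hα]; field_simp⟩
  have cβ : Real.cos (p * β) = 1 := by
    rw [Real.cos_eq_one_iff]
    exact ⟨b, by rw [hβ]; field_simp⟩
  rw [← hα, ← hβ] at hA hB
  let F : Function.End {x // x ∈ A} := fun x => ⟨rot α β x.1, hA x.1 x.2⟩
  have hF : ∀ k : ℕ, ∀ x : {x // x ∈ A}, ((F ^ k) x).1 = rot (k * α) (k * β) x.1 := by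
    intro k
    induction k with
    | zero =>
      intro x
      rw [pow_zero]
      show x.1 = _
      rw [rot_of_one (by simp) (by simp)]
    | succ k ih =>
      intro x
      rw [pow_succ']
      show rot α β ((F ^ k) x).1 = _
      rw [ih x, rot_rot]
      congr 1 <;> push_cast <;> ring
  have hFp : F ^ p ^ 1 = 1 := by
    funext x
    apply Subtype.ext
    rw [pow_one, hF p x, rot_of_one cα cβ]
    rfl
  have h := Equiv.Perm.card_fixedPoints_modEq hFp
  rw [Fintype.card_coe] at h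
  have e : Fintype.card F.fixedPoints = B.card := by
    rw [← Fintype.card_coe B]
    refine Fintype.card_congr ?_
    refine
      { toFun := fun x => ⟨x.1.1, (hB _).mpr ⟨x.1.2, congrArg Subtype.val x.2⟩⟩
        invFun := fun x => ⟨⟨x.1, ((hB _).mp x.2).1⟩, Subtype.ext ((hB _).mp x.2).2⟩
        left_inv := fun x => rfl
        right_inv := fun x => rfl }
  rwa [e] at h

end Pool.Agent.H66.KS
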