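import Mathlib

/-! # Numerical lemmas for rotations of order eleven -/

set_option autoImplicit false

namespace Pool.Agent.H66.KS

/-- the cone of `(√A, √B)` -/
theorem cone_st {s t s' t' : ℝ} (hs : 0 ≤ s) (hs' : 0 ≤ s')
    (h1 : 3643 / 5000 * s ≤ t) (h2 : t ≤ 9201 / 5000 * s) (h1' : 3643 / 5000 * s' ≤ t')
    (h2' : t' ≤ 9201 / 5000 * s') :
    (s ^ 2 + t ^ 2) * (s' ^ 2 + t' ^ 2) ≤ 1961 / 1600 * (s * s' + t * t') ^ 2 := by
  have a1 := sub_nonneg.mpr h1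
  have a2 := sub_nonneg.mpr h2
  have b1 := sub_nonneg.mpr h1'
  have b2 := sub_nonneg.mpr h2'
  have c11 := mul_nonneg a1 b1
  have c12 := mul_nonneg a1 b2
  have c21 := mul_nonneg a2 b1
  have c22 := mul_nonneg a2 b2
  have ht : 0 ≤ t := by linarith
  have ht' : 0 ≤ t' := by linarith
  have L1 : s * t' - t * s' ≤ 19 / 40 * (s * s' + t * t') := by nlinarith
  have L2 : t * s' - s * t' ≤ 19 / 40 * (s * s' + t * t') := by nlinarith
  have hU : 0 ≤ s * s' + t * t' := by positivity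
  have hsq : (s * t' - t * s') ^ 2 ≤ (19 / 40 * (s * s' + t * t')) ^ 2 :=
    sq_le_sq' (by linarith) L1
  nlinarith

/-- the chord of the arc of `(v, h)` -/
theorem chord {v h : ℝ} (h1 : 617 / 5000 * v ≤ h) (h2 : h ≤ 3553 / 5000 * v)
    (hvh : v ^ 2 + h ^ 2 = 1) :
    1 ≤ (3553 / 5000 * v - h) / (367 / 625) * (2519 / 2500) +
      (h - 617 / 5000 * v) / (367 / 625) * (3067 / 2500) := by
  obtain ⟨μ, hμ⟩ : ∃ μ, μ = (3553 / 5000 * v - h) / (367 / 625) := ⟨_, rfl⟩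
  obtain ⟨ν, hν⟩ : ∃ ν, ν = (h - 617 / 5000 * v) / (367 / 625) := ⟨_, rfl⟩
  rw [← hμ, ← hν]
  have hμ0 : 0 ≤ μ := by rw [hμ]; exact div_nonneg (by linarith) (by norm_num)
  have hν0 : 0 ≤ ν := by rw [hν]; exact div_nonneg (by linarith) (by norm_num)
  have ev : v = μ + ν := by rw [hμ, hν]; ring
  have eh : h = 617 / 5000 * μ + 3553 / 5000 * ν := by rw [hμ, hν]; ring
  rw [ev, eh] at hvh
  have hm := mul_nonneg hμ0 hν0
  have h0 : 0 ≤ μ * (2519 / 2500) + ν * (3067 / 2500) := by positivity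
  by_contra hcon
  push Not at hcon
  have : (μ * (2519 / 2500) + ν * (3067 / 2500)) ^ 2 < 1 := by nlinarith
  nlinarith [sq_nonneg μ, sq_nonneg ν]

theorem cone_vh {v h v' h' : ℝ} (h1 : 617 / 5000 * v ≤ h) (h2 : h ≤ 3553 / 5000 * v)
    (hvh : v ^ 2 + h ^ 2 = 1) (h1' : 617 / 5000 * v' ≤ h') (h2' : h' ≤ 3553 / 5000 * v')
    (hvh' : v' ^ 2 + h' ^ 2 = 1) : 107 / 100 ≤ 1129 / 1000 * (v * v') + 9 / 4 * (h * h') := by
  have k := chord h1 h2 hvh
  have k' := chord h1' h2' hvh'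
  obtain ⟨μ, hμ⟩ : ∃ μ, μ = (3553 / 5000 * v - h) / (367 / 625) := ⟨_, rfl⟩
  obtain ⟨ν, hν⟩ : ∃ ν, ν = (h - 617 / 5000 * v) / (367 / 625) := ⟨_, rfl⟩
  obtain ⟨μ', hμ'⟩ : ∃ μ', μ' = (3553 / 5000 * v' - h') / (367 / 625) := ⟨_, rfl⟩
  obtain ⟨ν', hν'⟩ : ∃ ν', ν' = (h' - 617 / 5000 * v') / (367 / 625) := ⟨_, rfl⟩
  rw [← hμ, ← hν] at k
  rw [← hμ', ← hν'] at k'
  have hμ0 : 0 ≤ μ := by rw [hμ]; exact div_nonneg (by linarith) (by norm_num)
  have hν0 : 0 ≤ ν := by rw [hν]; exact div_nonneg (by linarith) (by norm_num)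
  have hμ0' : 0 ≤ μ' := by rw [hμ']; exact div_nonneg (by linarith) (by norm_num)
  have hν0' : 0 ≤ ν' := by rw [hν']; exact div_nonneg (by linarith) (by norm_num)
  have ev : v = μ + ν := by rw [hμ, hν]; ring
  have eh : h = 617 / 5000 * μ + 3553 / 5000 * ν := by rw [hμ, hν]; ring
  have ev' : v' = μ' + ν' := by rw [hμ', hν']; ring
  have eh' : h' = 617 / 5000 * μ' + 3553 / 5000 * ν' := by rw [hμ', hν']; ring
  have hprod : 1 ≤ (μ * (2519 / 2500) + ν * (3067 / 2500)) *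
      (μ' * (2519 / 2500) + ν' * (3067 / 2500)) := one_le_mul_of_one_le_of_one_le k k'
  rw [ev, eh, ev', eh']
  have m1 := mul_nonneg hμ0 hμ0'
  have m2 := mul_nonneg hμ0 hν0'
  have m3 := mul_nonneg hν0 hμ0'
  have m4 := mul_nonneg hν0 hν0'
  nlinarith

theorem le_of_sq {a b : ℝ} (ha : 0 ≤ a) (hb : 0 ≤ b) (h : a ^ 2 ≤ b ^ 2) : a ≤ b :=
  (pow_le_pow_iff_left₀ ha hb two_ne_zero).mp h

/-- the sum `a + b = √(A A') + √(B B')` -/
theorem sum_ab {A B H A' B' H' a b : ℝ} (hA : 0 ≤ A) (hB : 0 ≤ B) (hH : 0 ≤ H) (hA' : 0 ≤ A')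
    (hB' : 0 ≤ B') (hH' : 0 ≤ H') (h1 : A + B + H = 1) (h1' : A' + B' + H' = 1)
    (i : 2103 / 2500 * A - 1427 / 10000 * B + H ≤ 1 / 2)
    (ii : -(6553 / 10000) * A + 2103 / 2500 * B + H ≤ 1 / 2)
    (i' : 2103 / 2500 * A' - 1427 / 10000 * B' + H' ≤ 1 / 2)
    (ii' : -(6553 / 10000) * A' + 2103 / 2500 * B' + H' ≤ 1 / 2)
    (ha : 0 ≤ a) (hb : 0 ≤ b) (ea : a ^ 2 = A * A') (eb : b ^ 2 = B * B') :
    (1 - H) * (1 - H') ≤ 1961 / 1600 * (a + b) ^ 2 ∧ 1733 / 5000 ≤ b := by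
  have hs := Real.sq_sqrt hA
  have ht := Real.sq_sqrt hB
  have hs' := Real.sq_sqrt hA'
  have ht' := Real.sq_sqrt hB'
  have ps := Real.sqrt_nonneg A
  have pt := Real.sqrt_nonneg B
  have ps' := Real.sqrt_nonneg A'
  have pt' := Real.sqrt_nonneg B'
  have e1 : a = √A * √A' := by
    rw [← Real.sqrt_mul hA, ← ea, Real.sqrt_sq ha]
  have e2 : b = √B * √B' := by
    rw [← Real.sqrt_mul hB, ← eb, Real.sqrt_sq hb]
  have q1 : 3643 / 5000 * √A ≤ √B := by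
    refine le_of_sq (by positivity) pt ?_
    rw [mul_pow, hs, ht]
    linarith
  have q2 : √B ≤ 9201 / 5000 * √A := by
    refine le_of_sq pt (by positivity) ?_
    rw [mul_pow, hs, ht]
    linarith
  have q1' : 3643 / 5000 * √A' ≤ √B' := by
    refine le_of_sq (by positivity) pt' ?_
    rw [mul_pow, hs', ht']
    linarith
  have q2' : √B' ≤ 9201 / 5000 * √A' := by
    refine le_of_sq pt' (by positivity) ?_
    rw [mul_pow, hs', ht']
    linarith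
  have h := cone_st ps ps' q1 q2 q1' q2'
  rw [hs, ht, hs', ht', ← e1, ← e2] at h
  refine ⟨?_, ?_⟩
  · have e3 : 1 - H = A + B := by linarith
    have e4 : 1 - H' = A' + B' := by linarith
    rw [e3, e4]
    exact h
  · have hB1 : 1733 / 5000 ≤ B := by linarith
    have hB1' : 1733 / 5000 ≤ B' := by linarith
    refine le_of_sq (by norm_num) hb ?_
    rw [eb]
    nlinarith

/-- small heights -/
theorem num_small {A B H A' B' H' a b M : ℝ} (hA : 0 ≤ A) (hB : 0 ≤ B) (hH : 0 ≤ H) (hA' : 0 ≤ A')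
    (hB' : 0 ≤ B') (hH' : 0 ≤ H') (h1 : A + B + H = 1) (h1' : A' + B' + H' = 1)
    (i : 2103 / 2500 * A - 1427 / 10000 * B + H ≤ 1 / 2)
    (ii : -(6553 / 10000) * A + 2103 / 2500 * B + H ≤ 1 / 2)
    (i' : 2103 / 2500 * A' - 1427 / 10000 * B' + H' ≤ 1 / 2)
    (ii' : -(6553 / 10000) * A' + 2103 / 2500 * B' + H' ≤ 1 / 2)
    (ha : 0 ≤ a) (hb : 0 ≤ b) (ea : a ^ 2 = A * A') (eb : b ^ 2 = B * B')
    (hM : 5 / 4 * a + 23 / 16 * b ≤ 9 / 4 * M) (s1 : H ≤ 3 / 200) (s2 : H' ≤ 3 / 200)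
    (s3 : M ≤ 1 / 2 + 3 / 200) : False := by
  obtain ⟨k1, k2⟩ := sum_ab hA hB hH hA' hB' hH' h1 h1' i ii i' ii' ha hb ea eb
  have k3 : (197 / 200 : ℝ) ^ 2 ≤ (1 - H) * (1 - H') := by nlinarith
  have k4 : 889 / 1000 ≤ a + b := by
    by_contra hcon
    push Not at hcon
    nlinarith
  linarith

/-- large heights -/
theorem num_large {A B H A' B' H' a b M g : ℝ} (hA : 0 ≤ A) (hB : 0 ≤ B) (hH : 0 ≤ H) (hA' : 0 ≤ A')
    (hB' : 0 ≤ B') (hH' : 0 ≤ H') (h1 : A + B + H = 1) (h1' : A' + B' + H' = 1)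
    (i : 2103 / 2500 * A - 1427 / 10000 * B + H ≤ 1 / 2)
    (ii : -(6553 / 10000) * A + 2103 / 2500 * B + H ≤ 1 / 2)
    (i' : 2103 / 2500 * A' - 1427 / 10000 * B' + H' ≤ 1 / 2)
    (ii' : -(6553 / 10000) * A' + 2103 / 2500 * B' + H' ≤ 1 / 2)
    (ha : 0 ≤ a) (hb : 0 ≤ b) (ea : a ^ 2 = A * A') (eb : b ^ 2 = B * B')
    (hM : 5 / 4 * a + 23 / 16 * b ≤ 9 / 4 * M) (s1 : 3 / 200 ≤ H) (s2 : 3 / 200 ≤ H')
    (hg : 0 ≤ g) (eg : g ^ 2 = H * H') (s3 : M ≤ 1 / 2 - g) : False := by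
  obtain ⟨k1, k2⟩ := sum_ab hA hB hH hA' hB' hH' h1 h1' i ii i' ii' ha hb ea eb
  have hV : 0 ≤ 1 - H := by linarith
  have hV' : 0 ≤ 1 - H' := by linarith
  have hv := Real.sq_sqrt hV
  have hv' := Real.sq_sqrt hV'
  have hh := Real.sq_sqrt hH
  have hh' := Real.sq_sqrt hH'
  have pv := Real.sqrt_nonneg (1 - H)
  have pv' := Real.sqrt_nonneg (1 - H')
  have ph := Real.sqrt_nonneg H
  have ph' := Real.sqrt_nonneg H'
  have eg' : g = √H * √H' := by rw [← Real.sqrt_mul hH, ← eg, Real.sqrt_sq hg]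
  have hHu : H ≤ 671 / 2000 := by linarith
  have hHu' : H' ≤ 671 / 2000 := by linarith
  have q1 : 617 / 5000 * √(1 - H) ≤ √H := by
    refine le_of_sq (by positivity) ph ?_
    rw [mul_pow, hv, hh]; linarith
  have q2 : √H ≤ 3553 / 5000 * √(1 - H) := by
    refine le_of_sq ph (by positivity) ?_
    rw [mul_pow, hv, hh]; linarith
  have q1' : 617 / 5000 * √(1 - H') ≤ √H' := by
    refine le_of_sq (by positivity) ph' ?_
    rw [mul_pow, hv', hh']; linarith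
  have q2' : √H' ≤ 3553 / 5000 * √(1 - H') := by
    refine le_of_sq ph' (by positivity) ?_
    rw [mul_pow, hv', hh']; linarith
  have h := cone_vh q1 q2 (by rw [hv, hh]; ring) q1' q2' (by rw [hv', hh']; ring)
  rw [← eg'] at h
  have k4 : 9032 / 10000 * (√(1 - H) * √(1 - H')) ≤ a + b := by
    refine le_of_sq (by positivity) (by positivity) ?_
    rw [mul_pow, mul_pow, hv, hv']
    nlinarith [mul_nonneg hV hV']
  linarith

/-- a bound for `cos (2 π / 11)` -/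
theorem root_bound {c : ℝ} (h : 32 * c ^ 5 + 16 * c ^ 4 - 32 * c ^ 3 - 12 * c ^ 2 + 6 * c + 1 = 0)
    (hc : 4 / 5 < c) : 2103 / 2500 ≤ c := by
  by_contra hcon
  push Not at hcon
  have e : 32 * c ^ 5 + 16 * c ^ 4 - 32 * c ^ 3 - 12 * c ^ 2 + 6 * c + 1 =
      (c - 2103 / 2500) * (32 * c ^ 4 + (16 + 32 * (2103 / 2500)) * c ^ 3 +
        (-32 + (16 + 32 * (2103 / 2500)) * (2103 / 2500)) * c ^ 2 +
        (-12 + (-32 + (16 + 32 * (2103 / 2500)) * (2103 / 2500)) * (2103 / 2500)) * c +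
        (6 + (-12 + (-32 + (16 + 32 * (2103 / 2500)) * (2103 / 2500)) * (2103 / 2500)) *
          (2103 / 2500))) +
      (32 * (2103 / 2500) ^ 5 + 16 * (2103 / 2500) ^ 4 - 32 * (2103 / 2500) ^ 3 -
        12 * (2103 / 2500) ^ 2 + 6 * (2103 / 2500) + 1) := by ring
  have c2 : 16 / 25 < c ^ 2 := by nlinarith
  have c3 : 64 / 125 < c ^ 3 := by nlinarith
  have c4 : 256 / 625 < c ^ 4 := by nlinarith
  have hq : 0 < 32 * c ^ 4 + (16 + 32 * (2103 / 2500)) * c ^ 3 +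
        (-32 + (16 + 32 * (2103 / 2500)) * (2103 / 2500)) * c ^ 2 +
        (-12 + (-32 + (16 + 32 * (2103 / 2500)) * (2103 / 2500)) * (2103 / 2500)) * c +
        (6 + (-12 + (-32 + (16 + 32 * (2103 / 2500)) * (2103 / 2500)) * (2103 / 2500)) *
          (2103 / 2500)) := by
    norm_num
    nlinarith
  have hneg : 32 * (2103 / 2500 : ℝ) ^ 5 + 16 * (2103 / 2500) ^ 4 - 32 * (2103 / 2500) ^ 3 -
        12 * (2103 / 2500) ^ 2 + 6 * (2103 / 2500) + 1 < 0 := by norm_num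
  have := mul_neg_of_neg_of_pos (sub_neg.mpr hcon) hq
  linarith

theorem cos_bounds : 2103 / 2500 ≤ Real.cos (2 * Real.pi / 11) ∧
    519 / 1250 ≤ Real.cos (2 * (2 * Real.pi / 11)) ∧
    -(1427 / 10000) ≤ Real.cos (3 * (2 * Real.pi / 11)) ∧
    -(6553 / 10000) ≤ Real.cos (4 * (2 * Real.pi / 11)) := by
  obtain ⟨t, ht⟩ : ∃ t, t = 2 * Real.pi / 11 := ⟨_, rfl⟩
  rw [← ht]
  obtain ⟨c, hc⟩ : ∃ c, c = Real.cos t := ⟨_, rfl⟩
  have hpi := Real.pi_pos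
  have c2 : Real.cos (2 * t) = 2 * c ^ 2 - 1 := by rw [Real.cos_two_mul, hc]
  have c3 : Real.cos (3 * t) = 4 * c ^ 3 - 3 * c := by rw [Real.cos_three_mul, hc]
  have c4 : Real.cos (4 * t) = 2 * (2 * c ^ 2 - 1) ^ 2 - 1 := by
    rw [show 4 * t = 2 * (2 * t) by ring, Real.cos_two_mul, c2]
  have c6 : Real.cos (6 * t) = 2 * (4 * c ^ 3 - 3 * c) ^ 2 - 1 := by
    rw [show 6 * t = 2 * (3 * t) by ring, Real.cos_two_mul, c3]
  have c5 : Real.cos (5 * t) = Real.cos (6 * t) := by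
    rw [show 5 * t = 2 * Real.pi - 6 * t by rw [ht]; ring, Real.cos_two_pi_sub]
  have c51 : Real.cos (5 * t) + Real.cos t = 2 * Real.cos (3 * t) * Real.cos (2 * t) := by
    rw [show 5 * t = 3 * t + 2 * t by ring, Real.cos_add]
    have e : Real.cos t = Real.cos (3 * t) * Real.cos (2 * t) + Real.sin (3 * t) * Real.sin (2 * t) := by
      rw [← Real.cos_sub]; congr 1; ring
    linarith
  have hc1 : c < 1 := by
    rw [hc, ← Real.cos_zero]
    exact Real.cos_lt_cos_of_nonneg_of_le_pi le_rfl (by rw [ht]; linarith) (by rw [ht]; positivity)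
  have hc8 : 4 / 5 < c := by
    have h1 : Real.cos (Real.pi / 5) < c := by
      rw [hc]
      exact Real.cos_lt_cos_of_nonneg_of_le_pi (by rw [ht]; positivity) (by linarith)
        (by rw [ht]; linarith)
    rw [Real.cos_pi_div_five] at h1
    have h5 : (11 / 5 : ℝ) < √5 := by
      rw [show (11 / 5 : ℝ) = √((11 / 5) ^ 2) by rw [Real.sqrt_sq (by norm_num)]]
      exact Real.sqrt_lt_sqrt (by norm_num) (by norm_num)
    linarith
  have hpoly : (c - 1) * (32 * c ^ 5 + 16 * c ^ 4 - 32 * c ^ 3 - 12 * c ^ 2 + 6 * c + 1) = 0 := by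
    have e : 2 * (4 * c ^ 3 - 3 * c) ^ 2 - 1 + c =
        2 * (4 * c ^ 3 - 3 * c) * (2 * c ^ 2 - 1) := by
      rw [← c6, ← c3, ← c2, ← c5, hc]; exact c51
    linear_combination e
  have hp := (mul_eq_zero.mp hpoly).resolve_left (by linarith)
  have hb := root_bound hp hc8
  have hb2 : (2103 / 2500 : ℝ) ^ 2 ≤ c ^ 2 := pow_le_pow_left₀ (by norm_num) hb 2
  refine ⟨by rw [← hc]; exact hb, ?_, ?_, ?_⟩
  · rw [c2]; norm_num at hb2 ⊢; linarith
  · rw [c3]; nlinarith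
  · rw [c4]; nlinarith

end Pool.Agent.H66.KS
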