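import Pool.Agent.H66.KS.Wt
import Pool.Agent.H66.KS.Num

/-! # Rotations of order eleven in two planes -/

set_option autoImplicit false

namespace Pool.Agent.H66.KS

open Finset Pool.Agent.H16.KISS

theorem polar (P Q : ℝ) : ∃ a θ : ℝ, 0 ≤ a ∧ P = a * Real.cos θ ∧ Q = -(a * Real.sin θ) ∧
    a ^ 2 = P ^ 2 + Q ^ 2 := by
  refine ⟨‖(⟨P, -Q⟩ : ℂ)‖, Complex.arg ⟨P, -Q⟩, norm_nonneg _, ?_, ?_, ?_⟩
  · rw [Complex.norm_mul_cos_arg]
  · rw [Complex.norm_mul_sin_arg]; simp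
  · rw [Complex.sq_norm, Complex.normSq_mk]; ring

/-- the orbit map -/
noncomputable def T (b : ℤ) (k : ℕ) (x : E5) : E5 :=
  rot (k * (2 * Real.pi / 11)) (k * (2 * Real.pi * b / 11)) x

/-- `x` is moved -/
def Mov (x : E5) : Prop := ¬ (x 0 = 0 ∧ x 1 = 0 ∧ x 2 = 0 ∧ x 3 = 0)

theorem ip_T (b : ℤ) (x y : E5) : ∃ a θ c φ : ℝ, 0 ≤ a ∧ 0 ≤ c ∧
    a ^ 2 = (x 0 ^ 2 + x 1 ^ 2) * (y 0 ^ 2 + y 1 ^ 2) ∧
    c ^ 2 = (x 2 ^ 2 + x 3 ^ 2) * (y 2 ^ 2 + y 3 ^ 2) ∧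
    ∀ k : ℕ, ip (T b k x) y = a * Real.cos (θ + 2 * Real.pi * k / 11) +
      c * Real.cos (φ + 2 * Real.pi * b * k / 11) + x 4 * y 4 := by
  obtain ⟨a, θ, ha, h1, h2, h3⟩ := polar (x 0 * y 0 + x 1 * y 1) (x 0 * y 1 - x 1 * y 0)
  obtain ⟨c, φ, hc, g1, g2, g3⟩ := polar (x 2 * y 2 + x 3 * y 3) (x 2 * y 3 - x 3 * y 2)
  refine ⟨a, θ, c, φ, ha, hc, by rw [h3]; ring, by rw [g3]; ring, fun k => ?_⟩
  unfold T
  rw [ip_rot, h1, h2, g1, g2, show θ + 2 * Real.pi * k / 11 = k * (2 * Real.pi / 11) + θ by ring,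
    show φ + 2 * Real.pi * b * k / 11 = k * (2 * Real.pi * b / 11) + φ by ring, Real.cos_add,
    Real.cos_add]
  ring

theorem T_ne {b : ℤ} {k : ℕ} (hk : ¬ (11 : ℤ) ∣ k) (hb : ¬ (11 : ℤ) ∣ k * b) {x : E5} (hx : Mov x) :
    T b k x ≠ x := by
  intro h
  have c1 : Real.cos (k * (2 * Real.pi / 11)) ≠ 1 := by
    have := cos_ne_one (p := 11) (by norm_num) (m := k) (by exact_mod_cast hk)
    have e : (k : ℝ) * (2 * Real.pi / 11) = 2 * Real.pi * ((k : ℤ) : ℝ) / ((11 : ℕ) : ℝ) := by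
      push_cast; ring
    rwa [e]
  have c2 : Real.cos (k * (2 * Real.pi * b / 11)) ≠ 1 := by
    have := cos_ne_one (p := 11) (by norm_num) (m := k * b) (by exact_mod_cast hb)
    have e : (k : ℝ) * (2 * Real.pi * b / 11) =
        2 * Real.pi * ((k * b : ℤ) : ℝ) / ((11 : ℕ) : ℝ) := by
      push_cast; ring
    rwa [e]
  exact hx ⟨(fix01 h c1).1, (fix01 h c1).2, (fix23 h c2).1, (fix23 h c2).2⟩

theorem card_orbit {b : ℤ} {C : Finset E5} (h : ∀ x ∈ C, ∀ y ∈ C, ∃ k ∈ Finset.range 11,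
    T b k x = y) : C.card ≤ 11 := by
  classical
  rcases C.eq_empty_or_nonempty with h0 | ⟨x, hx⟩
  · rw [h0]; simp
  have hsub : C ⊆ (Finset.range 11).image fun k => T b k x := by
    intro y hy
    obtain ⟨k, hk, e⟩ := h x hx y hy
    exact Finset.mem_image.mpr ⟨k, hk, e⟩
  refine (Finset.card_le_card hsub).trans (Finset.card_image_le.trans ?_)
  rw [Finset.card_range]

theorem in_orbit {A : Finset E5} (h2 : ∀ x ∈ A, ∀ y ∈ A, x ≠ y → ip x y ≤ 1 / 2) {b : ℤ}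
    (hT : ∀ k : ℕ, ∀ x ∈ A, T b k x ∈ A) {k : ℕ} (hk : ¬ (11 : ℤ) ∣ k) (hb : ¬ (11 : ℤ) ∣ k * b)
    {x : E5} (hx : x ∈ A) (hm : Mov x) :
    Real.cos (k * (2 * Real.pi / 11)) * (x 0 ^ 2 + x 1 ^ 2) +
      Real.cos (k * (2 * Real.pi * b / 11)) * (x 2 ^ 2 + x 3 ^ 2) + x 4 ^ 2 ≤ 1 / 2 := by
  have h := h2 _ (hT k x hx) x hx (T_ne hk hb hm)
  unfold T at h
  rw [ip_rot] at h
  nlinarith

theorem moved_three {A : Finset E5} (h1 : ∀ x ∈ A, ip x x = 1)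
    (h2 : ∀ x ∈ A, ∀ y ∈ A, x ≠ y → ip x y ≤ 1 / 2) {b : ℤ} (hb : b = 3 ∨ b = -3)
    (hT : ∀ k : ℕ, ∀ x ∈ A, T b k x ∈ A) (B : Finset E5) (hBA : ∀ x ∈ B, x ∈ A)
    (hB : ∀ x ∈ B, Mov x) : B.card ≤ 33 := by
  classical
  obtain ⟨b1, b2, b3, b4⟩ := cos_bounds
  have hunit : ∀ x ∈ B, (x 0 ^ 2 + x 1 ^ 2) + (x 2 ^ 2 + x 3 ^ 2) + x 4 ^ 2 = 1 := by
    intro x hx
    have := h1 x (hBA x hx)
    unfold ip at this
    rw [Fin.sum_univ_five] at this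
    linarith
  have hi : ∀ x ∈ B, 2103 / 2500 * (x 0 ^ 2 + x 1 ^ 2) - 1427 / 10000 * (x 2 ^ 2 + x 3 ^ 2) +
      x 4 ^ 2 ≤ 1 / 2 := by
    intro x hx
    have h := in_orbit h2 hT (k := 1) (by decide) (by rcases hb with rfl | rfl <;> decide)
      (hBA x hx) (hB x hx)
    have e : Real.cos ((1 : ℕ) * (2 * Real.pi * b / 11)) = Real.cos (3 * (2 * Real.pi / 11)) := by
      rcases hb with rfl | rfl
      · congr 1; push_cast; ring
      · rw [← Real.cos_neg]; congr 1; push_cast; ring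
    rw [e, Nat.cast_one, one_mul] at h
    have p1 : 0 ≤ x 0 ^ 2 + x 1 ^ 2 := by positivity
    have p2 : 0 ≤ x 2 ^ 2 + x 3 ^ 2 := by positivity
    have m1 := mul_le_mul_of_nonneg_right b1 p1
    have m2 := mul_le_mul_of_nonneg_right b3 p2
    linarith
  have hii : ∀ x ∈ B, -(6553 / 10000) * (x 0 ^ 2 + x 1 ^ 2) + 2103 / 2500 * (x 2 ^ 2 + x 3 ^ 2) +
      x 4 ^ 2 ≤ 1 / 2 := by
    intro x hx
    have h := in_orbit h2 hT (k := 4) (by decide) (by rcases hb with rfl | rfl <;> decide)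
      (hBA x hx) (hB x hx)
    have e : Real.cos ((4 : ℕ) * (2 * Real.pi * b / 11)) = Real.cos (2 * Real.pi / 11) := by
      rcases hb with rfl | rfl
      · rw [← Real.cos_add_two_pi (2 * Real.pi / 11)]; congr 1; push_cast; ring
      · rw [← Real.cos_neg, ← Real.cos_add_two_pi (2 * Real.pi / 11)]; congr 1; push_cast; ring
    rw [e] at h
    push_cast at h
    have p1 : 0 ≤ x 0 ^ 2 + x 1 ^ 2 := by positivity
    have p2 : 0 ≤ x 2 ^ 2 + x 3 ^ 2 := by positivity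
    have m1 := mul_le_mul_of_nonneg_right b4 p1
    have m2 := mul_le_mul_of_nonneg_right b1 p2
    linarith
  have hconf : ∀ x ∈ B, ∀ y ∈ B, ((x 4 ^ 2 ≤ 3 / 200 ∧ y 4 ^ 2 ≤ 3 / 200) ∨
      (3 / 200 ≤ x 4 ^ 2 ∧ 3 / 200 ≤ y 4 ^ 2 ∧ 0 ≤ x 4 * y 4)) → ∃ k ∈ Finset.range 11,
      T b k x = y := by
    intro x hx y hy hcl
    by_contra hcon
    push Not at hcon
    obtain ⟨a, θ, c, φ, ha, hc, ea, ec, hip⟩ := ip_T b x y
    have hle : ∀ k ∈ Finset.range 11, a * Real.cos (θ + 2 * Real.pi * k / 11) +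
        c * Real.cos (φ + 2 * Real.pi * b * k / 11) ≤ 1 / 2 - x 4 * y 4 := by
      intro k hk
      have h := h2 _ (hT k x (hBA x hx)) y (hBA y hy) (hcon k hk)
      rw [hip k] at h
      linarith
    have hw := wt_three hb ha hc hle
    have p1 : 0 ≤ x 0 ^ 2 + x 1 ^ 2 := by positivity
    have p2 : 0 ≤ x 2 ^ 2 + x 3 ^ 2 := by positivity
    have p1' : 0 ≤ y 0 ^ 2 + y 1 ^ 2 := by positivity
    have p2' : 0 ≤ y 2 ^ 2 + y 3 ^ 2 := by positivity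
    rcases hcl with ⟨s1, s2⟩ | ⟨s1, s2, s3⟩
    · refine num_small p1 p2 (sq_nonneg _) p1' p2' (sq_nonneg _) (hunit x hx) (hunit y hy)
        (hi x hx) (hii x hx) (hi y hy) (hii y hy) ha hc ea ec hw s1 s2 ?_
      nlinarith [sq_nonneg (x 4 + y 4)]
    · exact num_large p1 p2 (sq_nonneg _) p1' p2' (sq_nonneg _) (hunit x hx) (hunit y hy)
        (hi x hx) (hii x hx) (hi y hy) (hii y hy) ha hc ea ec hw s1 s2 s3 (by ring) le_rfl
  -- the three classes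
  have hc1 : (B.filter fun x => x 4 ^ 2 ≤ 3 / 200).card ≤ 11 := by
    refine card_orbit (b := b) fun x hx y hy => ?_
    rw [Finset.mem_filter] at hx hy
    exact hconf x hx.1 y hy.1 (Or.inl ⟨hx.2, hy.2⟩)
  have hc2 : ((B.filter fun x => ¬ x 4 ^ 2 ≤ 3 / 200).filter fun x => 0 ≤ x 4).card ≤ 11 := by
    refine card_orbit (b := b) fun x hx y hy => ?_
    rw [Finset.mem_filter, Finset.mem_filter] at hx hy
    exact hconf x hx.1.1 y hy.1.1 (Or.inr ⟨(not_le.mp hx.1.2).le, (not_le.mp hy.1.2).le,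
      mul_nonneg hx.2 hy.2⟩)
  have hc3 : ((B.filter fun x => ¬ x 4 ^ 2 ≤ 3 / 200).filter fun x => ¬ 0 ≤ x 4).card ≤ 11 := by
    refine card_orbit (b := b) fun x hx y hy => ?_
    rw [Finset.mem_filter, Finset.mem_filter] at hx hy
    exact hconf x hx.1.1 y hy.1.1 (Or.inr ⟨(not_le.mp hx.1.2).le, (not_le.mp hy.1.2).le,
      mul_nonneg_of_nonpos_of_nonpos (not_le.mp hx.2).le (not_le.mp hy.2).le⟩)
  have e1 := Finset.card_filter_add_card_filter_not (s := B) (fun x : E5 => x 4 ^ 2 ≤ 3 / 200)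
  have e2 := Finset.card_filter_add_card_filter_not
    (s := B.filter fun x => ¬ x 4 ^ 2 ≤ 3 / 200) (fun x : E5 => 0 ≤ x 4)
  omega

theorem moved_two {A : Finset E5} (h1 : ∀ x ∈ A, ip x x = 1)
    (h2 : ∀ x ∈ A, ∀ y ∈ A, x ≠ y → ip x y ≤ 1 / 2) {b : ℤ} (hb : b = 2 ∨ b = -2)
    (hT : ∀ k : ℕ, ∀ x ∈ A, T b k x ∈ A) (B : Finset E5) (hBA : ∀ x ∈ B, x ∈ A)
    (hB : ∀ x ∈ B, Mov x) : B.card ≤ 11 := by
  classical
  obtain ⟨b1, b2, b3, b4⟩ := cos_bounds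
  have hunit : ∀ x ∈ B, (x 0 ^ 2 + x 1 ^ 2) + (x 2 ^ 2 + x 3 ^ 2) + x 4 ^ 2 = 1 := by
    intro x hx
    have := h1 x (hBA x hx)
    unfold ip at this
    rw [Fin.sum_univ_five] at this
    linarith
  have hi : ∀ x ∈ B, 2103 / 2500 * (x 0 ^ 2 + x 1 ^ 2) + 519 / 1250 * (x 2 ^ 2 + x 3 ^ 2) +
      x 4 ^ 2 ≤ 1 / 2 := by
    intro x hx
    have h := in_orbit h2 hT (k := 1) (by decide) (by rcases hb with rfl | rfl <;> decide)
      (hBA x hx) (hB x hx)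
    have e : Real.cos ((1 : ℕ) * (2 * Real.pi * b / 11)) = Real.cos (2 * (2 * Real.pi / 11)) := by
      rcases hb with rfl | rfl
      · congr 1; push_cast; ring
      · rw [← Real.cos_neg]; congr 1; push_cast; ring
    rw [e, Nat.cast_one, one_mul] at h
    have p1 : 0 ≤ x 0 ^ 2 + x 1 ^ 2 := by positivity
    have p2 : 0 ≤ x 2 ^ 2 + x 3 ^ 2 := by positivity
    have m1 := mul_le_mul_of_nonneg_right b1 p1
    have m2 := mul_le_mul_of_nonneg_right b2 p2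
    linarith
  have hii : ∀ x ∈ B, -(x 0 ^ 2 + x 1 ^ 2) + 2103 / 2500 * (x 2 ^ 2 + x 3 ^ 2) +
      x 4 ^ 2 ≤ 1 / 2 := by
    intro x hx
    have h := in_orbit h2 hT (k := 5) (by decide) (by rcases hb with rfl | rfl <;> decide)
      (hBA x hx) (hB x hx)
    have e : Real.cos ((5 : ℕ) * (2 * Real.pi * b / 11)) = Real.cos (2 * Real.pi / 11) := by
      rcases hb with rfl | rfl
      · rw [← Real.cos_two_pi_sub]; congr 1; push_cast; ring
      · rw [← Real.cos_neg, ← Real.cos_two_pi_sub]; congr 1; push_cast; ring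
    rw [e] at h
    have p1 : 0 ≤ x 0 ^ 2 + x 1 ^ 2 := by positivity
    have p2 : 0 ≤ x 2 ^ 2 + x 3 ^ 2 := by positivity
    have m1 := mul_le_mul_of_nonneg_right (Real.neg_one_le_cos ((5 : ℕ) * (2 * Real.pi / 11))) p1
    have m2 := mul_le_mul_of_nonneg_right b1 p2
    linarith
  refine card_orbit (b := b) fun x hx y hy => ?_
  by_contra hcon
  push Not at hcon
  obtain ⟨a, θ, c, φ, ha, hc, ea, ec, hip⟩ := ip_T b x y
  have hle : ∀ k ∈ Finset.range 11, a * Real.cos (θ + 2 * Real.pi * k / 11) +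
      c * Real.cos (φ + 2 * Real.pi * b * k / 11) ≤ 1 / 2 - x 4 * y 4 := by
    intro k hk
    have h := h2 _ (hT k x (hBA x hx)) y (hBA y hy) (hcon k hk)
    rw [hip k] at h
    linarith
  have hw := wt_two hb hle
  have u1 := hunit x hx
  have u2 := hunit y hy
  have i1 := hi x hx
  have i2 := hi y hy
  have j1 := hii x hx
  have j2 := hii y hy
  have q1 : 4 / 5 ≤ x 2 ^ 2 + x 3 ^ 2 := by linarith [sq_nonneg (x 4)]
  have q2 : 4 / 5 ≤ y 2 ^ 2 + y 3 ^ 2 := by linarith [sq_nonneg (y 4)]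
  have r1 : x 4 ^ 2 ≤ 1 / 100 := by linarith
  have r2 : y 4 ^ 2 ≤ 1 / 100 := by linarith
  have hc45 : 4 / 5 ≤ c := by
    refine le_of_sq (by norm_num) hc ?_
    rw [ec]
    nlinarith
  nlinarith [sq_nonneg (x 4 + y 4)]

end Pool.Agent.H66.KS
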