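import Pool.Agent.H66.KS.Eleven

/-! # Symmetries of prime order of 44-point kissing configurations: conclusion -/

set_option autoImplicit false

namespace Pool.Agent.H66.KS

open Finset Pool.Agent.H16.KISS

/-- `A` is invariant under the rotations by `2 π u / p` and `2 π v / p` -/
def Inv (A : Finset E5) (p : ℕ) (u v : ℤ) : Prop :=
  ∀ x ∈ A, rot (2 * Real.pi * u / p) (2 * Real.pi * v / p) x ∈ A

theorem Inv.mul {A : Finset E5} {p : ℕ} {u v : ℤ} (h : Inv A p u v) (k : ℕ) :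
    Inv A p (k * u) (k * v) := by
  intro x hx
  have := iter_mem h k hx
  have e1 : (k : ℝ) * (2 * Real.pi * u / p) = 2 * Real.pi * ((k * u : ℤ) : ℝ) / p := by
    push_cast; ring
  have e2 : (k : ℝ) * (2 * Real.pi * v / p) = 2 * Real.pi * ((k * v : ℤ) : ℝ) / p := by
    push_cast; ring
  rwa [e1, e2] at this

theorem Inv.congr {A : Finset E5} {p : ℕ} (hp : 0 < p) {u v u' v' : ℤ} (h : Inv A p u v)
    (hu : (p : ℤ) ∣ u - u') (hv : (p : ℤ) ∣ v - v') : Inv A p u' v' := by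
  intro x hx
  have := h x hx
  have e1 := ang_eq hp hu
  have e2 := ang_eq hp hv
  rwa [rot_congr e1.1 e1.2 e2.1 e2.2] at this

open Classical in
theorem Inv.swap {A : Finset E5} {p : ℕ} {u v : ℤ} (h : Inv A p u v) :
    Inv (A.image KS.swap) p v u := by
  intro x hx
  obtain ⟨y, hy, rfl⟩ := Finset.mem_image.mp hx
  rw [rot_swap]
  exact Finset.mem_image_of_mem _ (h y hy)

theorem cos_big {p : ℕ} {t : ℤ} (h1 : 6 * t < p) (h2 : -(p : ℤ) < 6 * t) :
    1 / 2 < Real.cos (2 * Real.pi * t / p) := by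
  have hp : (0 : ℝ) < p := by
    have : (0 : ℤ) < p := by omega
    exact_mod_cast this
  have h1' : 6 * (t : ℝ) < p := by exact_mod_cast h1
  have h2' : -(p : ℝ) < 6 * t := by exact_mod_cast h2
  have hpi := Real.pi_pos
  have habs : |2 * Real.pi * t / p| < Real.pi / 3 := by
    rw [abs_lt]
    constructor
    · rw [neg_lt, ← neg_div, div_lt_div_iff₀ hp (by norm_num)]
      nlinarith
    · rw [div_lt_div_iff₀ hp (by norm_num)]
      nlinarith
  rw [← Real.cos_abs, ← Real.cos_pi_div_three]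
  exact Real.cos_lt_cos_of_nonneg_of_le_pi (abs_nonneg _) (by linarith) habs

theorem all_fixed {A : Finset E5} (h1 : ∀ x ∈ A, ip x x = 1)
    (h2 : ∀ x ∈ A, ∀ y ∈ A, x ≠ y → ip x y ≤ 1 / 2) {p : ℕ} (hp : 0 < p) {u v : ℤ}
    (hu : ¬ (p : ℤ) ∣ u) (hv : ¬ (p : ℤ) ∣ v) (cu : 1 / 2 < Real.cos (2 * Real.pi * u / p))
    (cv : 1 / 2 < Real.cos (2 * Real.pi * v / p)) (hA : Inv A p u v) : ∀ x ∈ A, ¬ Mov x := by
  intro x hx hm
  have hne : rot (2 * Real.pi * u / p) (2 * Real.pi * v / p) x ≠ x := by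
    intro h
    have a := fix01 h (cos_ne_one hp hu)
    have b := fix23 h (cos_ne_one hp hv)
    exact hm ⟨a.1, a.2, b.1, b.2⟩
  have h := h2 _ (hA x hx) x hx hne
  rw [ip_rot] at h
  have hxx := h1 x hx
  unfold ip at hxx
  rw [Fin.sum_univ_five] at hxx
  have p1 : 0 ≤ x 0 ^ 2 + x 1 ^ 2 := by positivity
  have p2 : 0 ≤ x 2 ^ 2 + x 3 ^ 2 := by positivity
  have m1 := mul_nonneg (sub_nonneg.mpr cu.le) p1
  have m2 := mul_nonneg (sub_nonneg.mpr cv.le) p2
  have z1 : (Real.cos (2 * Real.pi * u / p) - 1 / 2) * (x 0 ^ 2 + x 1 ^ 2) = 0 := by nlinarith [sq_nonneg (x 4)]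
  have z2 : (Real.cos (2 * Real.pi * v / p) - 1 / 2) * (x 2 ^ 2 + x 3 ^ 2) = 0 := by nlinarith [sq_nonneg (x 4)]
  have w1 : x 0 ^ 2 + x 1 ^ 2 = 0 := (mul_eq_zero.mp z1).resolve_left (sub_pos.mpr cu).ne'
  have w2 : x 2 ^ 2 + x 3 ^ 2 = 0 := (mul_eq_zero.mp z2).resolve_left (sub_pos.mpr cv).ne'
  refine hm ⟨?_, ?_, ?_, ?_⟩ <;> nlinarith [sq_nonneg (x 0), sq_nonneg (x 1), sq_nonneg (x 2), sq_nonneg (x 3)]

theorem card_fixed {A : Finset E5} (h1 : ∀ x ∈ A, ip x x = 1) (B : Finset E5)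
    (hBA : ∀ x ∈ B, x ∈ A) (hB : ∀ x ∈ B, ¬ Mov x) : B.card ≤ 2 :=
  card_poles (fun x hx => h1 x (hBA x hx)) fun x hx => not_not.mp (hB x hx)

/-- order eleven, normalised -/
theorem eleven_norm {A : Finset E5} (h1 : ∀ x ∈ A, ip x x = 1)
    (h2 : ∀ x ∈ A, ∀ y ∈ A, x ≠ y → ip x y ≤ 1 / 2) {b : ℤ}
    (hb : b = 1 ∨ b = -1 ∨ b = 2 ∨ b = -2 ∨ b = 3 ∨ b = -3) (hA : Inv A 11 1 b) :
    A.card ≤ 35 := by
  classical
  have hT : ∀ k : ℕ, ∀ x ∈ A, T b k x ∈ A := by
    intro k x hx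
    have := iter_mem hA k hx
    push_cast at this
    rw [mul_one] at this
    exact this
  have hf : (A.filter fun x => ¬ Mov x).card ≤ 2 :=
    card_fixed h1 _ (fun x hx => (Finset.mem_filter.mp hx).1) fun x hx => (Finset.mem_filter.mp hx).2
  have hm : (A.filter fun x => Mov x).card ≤ 33 := by
    have case1 : (b = 1 ∨ b = -1) → (A.filter fun x => Mov x).card ≤ 33 := by
      intro hb1
      have hno := all_fixed h1 h2 (p := 11) (by norm_num) (u := 1) (v := b) (by decide)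
        (by rcases hb1 with rfl | rfl <;> decide) (cos_big (by norm_num) (by norm_num))
        (cos_big (by rcases hb1 with rfl | rfl <;> norm_num)
          (by rcases hb1 with rfl | rfl <;> norm_num)) hA
      have : A.filter (fun x => Mov x) = ∅ := by
        rw [Finset.filter_eq_empty_iff]
        exact fun x hx => hno x hx
      rw [this]; simp
    rcases hb with rfl | rfl | rfl | rfl | rfl | rfl
    · exact case1 (Or.inl rfl)
    · exact case1 (Or.inr rfl)
    · exact (moved_two h1 h2 (Or.inl rfl) hT _ (fun x hx => (Finset.mem_filter.mp hx).1)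
        fun x hx => (Finset.mem_filter.mp hx).2).trans (by norm_num)
    · exact (moved_two h1 h2 (Or.inr rfl) hT _ (fun x hx => (Finset.mem_filter.mp hx).1)
        fun x hx => (Finset.mem_filter.mp hx).2).trans (by norm_num)
    · exact moved_three h1 h2 (Or.inl rfl) hT _ (fun x hx => (Finset.mem_filter.mp hx).1)
        fun x hx => (Finset.mem_filter.mp hx).2
    · exact moved_three h1 h2 (Or.inr rfl) hT _ (fun x hx => (Finset.mem_filter.mp hx).1)
        fun x hx => (Finset.mem_filter.mp hx).2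
  have := Finset.card_filter_add_card_filter_not (s := A) (fun x : E5 => Mov x)
  omega

open Classical in
theorem swap_facts {A : Finset E5} (h1 : ∀ x ∈ A, ip x x = 1)
    (h2 : ∀ x ∈ A, ∀ y ∈ A, x ≠ y → ip x y ≤ 1 / 2) :
    (∀ x ∈ A.image KS.swap, ip x x = 1) ∧
    (∀ x ∈ A.image KS.swap, ∀ y ∈ A.image KS.swap, x ≠ y → ip x y ≤ 1 / 2) ∧
    (A.image KS.swap).card = A.card := by
  refine ⟨?_, ?_, ?_⟩
  · intro x hx
    obtain ⟨y, hy, rfl⟩ := Finset.mem_image.mp hx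
    rw [ip_swap]; exact h1 y hy
  · intro x hx y hy hxy
    obtain ⟨x', hx', rfl⟩ := Finset.mem_image.mp hx
    obtain ⟨y', hy', rfl⟩ := Finset.mem_image.mp hy
    rw [ip_swap]
    exact h2 x' hx' y' hy' fun h => hxy (by rw [h])
  · exact Finset.card_image_of_injective _ fun x y h => swap_inj h

theorem eleven {A : Finset E5} (h1 : ∀ x ∈ A, ip x x = 1)
    (h2 : ∀ x ∈ A, ∀ y ∈ A, x ≠ y → ip x y ≤ 1 / 2) {a b : ℤ} (ha : ¬ (11 : ℤ) ∣ a)
    (hb : ¬ (11 : ℤ) ∣ b) (hA : Inv A 11 a b) : A.card ≤ 35 := by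
  classical
  obtain ⟨k, hk⟩ := exists_inv (p := 11) (by norm_num) (a := a) (by exact_mod_cast ha)
  have hA1 := (hA.mul k).congr (by norm_num) (u' := 1) (v' := (k * b) % 11) hk
    (by push_cast; exact Int.dvd_self_sub_of_emod_eq rfl)
  have hk0 : ¬ (11 : ℤ) ∣ k := by
    intro h
    have h' : (11 : ℤ) ∣ k * a - 1 := by exact_mod_cast hk
    have h3 : (11 : ℤ) ∣ k * a := Dvd.dvd.mul_right h a
    have := dvd_sub h3 h'
    rw [sub_sub_cancel] at this
    exact absurd this (by decide)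
  have hr : (k * b : ℤ) % 11 ≠ 0 := by
    intro h
    have : (11 : ℤ) ∣ k * b := Int.dvd_of_emod_eq_zero h
    rcases (Int.prime_iff_natAbs_prime.mpr (by norm_num : Nat.Prime (Int.natAbs 11))).dvd_or_dvd this
      with h | h
    · exact hk0 h
    · exact hb h
  obtain ⟨r, hrr⟩ : ∃ r : ℤ, r = (k * b) % 11 := ⟨_, rfl⟩
  rw [← hrr] at hA1 hr
  have r0 : 0 ≤ r := by rw [hrr]; exact Int.emod_nonneg _ (by norm_num)
  have r11 : r < 11 := by rw [hrr]; exact Int.emod_lt_of_pos _ (by norm_num)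
  obtain ⟨s1, s2, s3⟩ := swap_facts h1 h2
  have direct : ∀ b' : ℤ, (11 : ℤ) ∣ r - b' → (b' = 1 ∨ b' = -1 ∨ b' = 2 ∨ b' = -2 ∨ b' = 3 ∨ b' = -3) →
      A.card ≤ 35 := fun b' hd hb' =>
    eleven_norm h1 h2 hb' (hA1.congr (by norm_num) (by norm_num) (by exact_mod_cast hd))
  have sw : ∀ (m : ℕ) (b' : ℤ), (11 : ℤ) ∣ m * r - 1 → (11 : ℤ) ∣ m * 1 - b' →
      (b' = 1 ∨ b' = -1 ∨ b' = 2 ∨ b' = -2 ∨ b' = 3 ∨ b' = -3) → A.card ≤ 35 := fun m b' hd hd' hb' => by
    rw [← s3]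
    exact eleven_norm s1 s2 hb' ((hA1.swap.mul m).congr (by norm_num) (by exact_mod_cast hd)
      (by exact_mod_cast hd'))
  interval_cases r
  · exact absurd rfl hr
  · exact direct 1 (by decide) (by decide)
  · exact direct 2 (by decide) (by decide)
  · exact direct 3 (by decide) (by decide)
  · exact sw 3 3 (by decide) (by decide) (by decide)
  · exact sw 9 (-2) (by decide) (by decide) (by decide)
  · exact sw 2 2 (by decide) (by decide) (by decide)
  · exact sw 8 (-3) (by decide) (by decide) (by decide)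
  · exact direct (-3) (by decide) (by decide)
  · exact direct (-2) (by decide) (by decide)
  · exact direct (-1) (by decide) (by decide)

theorem forty_three {A : Finset E5} (h1 : ∀ x ∈ A, ip x x = 1)
    (h2 : ∀ x ∈ A, ∀ y ∈ A, x ≠ y → ip x y ≤ 1 / 2) {a b : ℤ} (ha : ¬ (43 : ℤ) ∣ a)
    (hb : ¬ (43 : ℤ) ∣ b) (hA : Inv A 43 a b) : A.card ≤ 2 := by
  classical
  obtain ⟨k, hk⟩ := exists_inv (p := 43) (by norm_num) (a := a) (by exact_mod_cast ha)
  have hA1 := (hA.mul k).congr (by norm_num) (u' := 1) (v' := (k * b) % 43) hk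
    (by push_cast; exact Int.dvd_self_sub_of_emod_eq rfl)
  have hk0 : ¬ (43 : ℤ) ∣ k := by
    intro h
    have h' : (43 : ℤ) ∣ k * a - 1 := by exact_mod_cast hk
    have h3 : (43 : ℤ) ∣ k * a := Dvd.dvd.mul_right h a
    have := dvd_sub h3 h'
    rw [sub_sub_cancel] at this
    exact absurd this (by decide)
  have hpr : Prime (43 : ℤ) := Int.prime_iff_natAbs_prime.mpr (by norm_num)
  have hr : (k * b : ℤ) % 43 ≠ 0 := by
    intro h
    have : (43 : ℤ) ∣ k * b := Int.dvd_of_emod_eq_zero h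
    rcases hpr.dvd_or_dvd this with h | h
    · exact hk0 h
    · exact hb h
  obtain ⟨r, hrr⟩ : ∃ r : ℤ, r = (k * b) % 43 := ⟨_, rfl⟩
  rw [← hrr] at hA1 hr
  have r0 : 0 ≤ r := by rw [hrr]; exact Int.emod_nonneg _ (by norm_num)
  have r43 : r < 43 := by rw [hrr]; exact Int.emod_lt_of_pos _ (by norm_num)
  have hdec : ∀ r' ∈ Finset.range 43, ∃ j ∈ Finset.range 8, j ≠ 0 ∧
      ((j * r') % 43 ≤ 7 ∨ 36 ≤ (j * r') % 43) := by decide
  obtain ⟨n, hn⟩ : ∃ n : ℕ, r = n := ⟨r.toNat, (Int.toNat_of_nonneg r0).symm⟩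
  obtain ⟨j, hj, hj0, hj2⟩ := hdec n (Finset.mem_range.mpr (by omega))
  rw [Finset.mem_range] at hj
  have hrd : ¬ (43 : ℤ) ∣ r := by
    intro h
    omega
  have hjd : ¬ (43 : ℤ) ∣ j := by
    intro h
    omega
  have hnj : ¬ (43 : ℤ) ∣ j * r := fun h => by
    rcases hpr.dvd_or_dvd h with h | h
    · exact hjd h
    · exact hrd h
  have hfix : ∀ x ∈ A, ¬ Mov x := by
    have hA2 := hA1.mul j
    have key : ∃ t : ℤ, (43 : ℤ) ∣ j * r - t ∧ 6 * t < 43 ∧ -43 < 6 * t := by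
      rcases hj2 with h | h
      · refine ⟨((j * n) % 43 : ℕ), ?_, by omega, by omega⟩
        rw [hn]
        push_cast
        exact Int.dvd_self_sub_of_emod_eq rfl
      · refine ⟨((j * n) % 43 : ℕ) - 43, ?_, by omega, by omega⟩
        rw [hn]
        push_cast
        have : (43 : ℤ) ∣ (j : ℤ) * n - ((j : ℤ) * n) % 43 := Int.dvd_self_sub_of_emod_eq rfl
        omega
    obtain ⟨t, ht1, ht2, ht3⟩ := key
    refine all_fixed h1 h2 (p := 43) (by norm_num) (u := j) (v := t) (by exact_mod_cast hjd) ?_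
      (cos_big (by push_cast; omega) (by push_cast; omega))
      (cos_big (by push_cast; omega) (by push_cast; omega))
      (hA2.congr (by norm_num) (by simp) (by exact_mod_cast ht1))
    intro h
    have h' : (43 : ℤ) ∣ t := by exact_mod_cast h
    exact hnj (by have := dvd_add ht1 h'; rwa [sub_add_cancel] at this)
  exact card_fixed h1 A (fun x hx => hx) hfix

/-- both planes are rotated -/
theorem double {A : Finset E5} (h1 : ∀ x ∈ A, ip x x = 1)
    (h2 : ∀ x ∈ A, ∀ y ∈ A, x ≠ y → ip x y ≤ 1 / 2) {p : ℕ} (hp : p.Prime) {a b : ℤ}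
    (ha : ¬ (p : ℤ) ∣ a) (hb : ¬ (p : ℤ) ∣ b) (hA : Inv A p a b) (h44 : A.card = 44) :
    p = 2 ∨ p = 3 ∨ p = 7 := by
  classical
  have hmod := card_mod hp hA
    (A.filter fun x => rot (2 * Real.pi * a / p) (2 * Real.pi * b / p) x = x)
    (fun x => Finset.mem_filter)
  have hle : (A.filter fun x => rot (2 * Real.pi * a / p) (2 * Real.pi * b / p) x = x).card ≤ 2 := by
    refine card_fixed h1 _ (fun x hx => (Finset.mem_filter.mp hx).1) fun x hx hm => ?_
    have h := (Finset.mem_filter.mp hx).2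
    have u := fix01 h (cos_ne_one hp.pos ha)
    have v := fix23 h (cos_ne_one hp.pos hb)
    exact hm ⟨u.1, u.2, v.1, v.2⟩
  rw [h44] at hmod
  obtain ⟨f, hf⟩ : ∃ f, f = (A.filter fun x => rot (2 * Real.pi * a / p) (2 * Real.pi * b / p) x = x).card :=
    ⟨_, rfl⟩
  rw [← hf] at hmod hle
  have hdvd : p ∣ 44 - f := (Nat.modEq_iff_dvd' (by omega)).mp hmod.symm
  have h44' : p ∣ 44 ∨ p ∣ 43 ∨ p ∣ 42 := by
    interval_cases f
    · exact Or.inl hdvd
    · exact Or.inr (Or.inl hdvd)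
    · exact Or.inr (Or.inr hdvd)
  have hlist : p = 2 ∨ p = 3 ∨ p = 7 ∨ p = 11 ∨ p = 43 := by
    rcases h44' with h | h | h
    · have h' : p ∣ 2 * 2 * 11 := h
      rcases hp.dvd_mul.mp h' with h | h
      · rcases hp.dvd_mul.mp h with h | h <;>
          exact Or.inl ((Nat.prime_dvd_prime_iff_eq hp (by norm_num)).mp h)
      · exact Or.inr (Or.inr (Or.inr (Or.inl ((Nat.prime_dvd_prime_iff_eq hp (by norm_num)).mp h))))
    · exact Or.inr (Or.inr (Or.inr (Or.inr ((Nat.prime_dvd_prime_iff_eq hp (by norm_num)).mp h))))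
    · have h' : p ∣ 2 * 3 * 7 := h
      rcases hp.dvd_mul.mp h' with h | h
      · rcases hp.dvd_mul.mp h with h | h
        · exact Or.inl ((Nat.prime_dvd_prime_iff_eq hp (by norm_num)).mp h)
        · exact Or.inr (Or.inl ((Nat.prime_dvd_prime_iff_eq hp (by norm_num)).mp h))
      · exact Or.inr (Or.inr (Or.inl ((Nat.prime_dvd_prime_iff_eq hp (by norm_num)).mp h)))
  rcases hlist with h | h | h | h | h
  · exact Or.inl h
  · exact Or.inr (Or.inl h)
  · exact Or.inr (Or.inr h)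
  · subst h
    have := eleven h1 h2 (by exact_mod_cast ha) (by exact_mod_cast hb) hA
    omega
  · subst h
    have := forty_three h1 h2 (by exact_mod_cast ha) (by exact_mod_cast hb) hA
    omega

theorem main {A : Finset E5} (h1 : ∀ x ∈ A, ip x x = 1)
    (h2 : ∀ x ∈ A, ∀ y ∈ A, x ≠ y → ip x y ≤ 1 / 2) {p : ℕ} (hp : p.Prime) {a b : ℤ}
    (hab : ¬ ((p : ℤ) ∣ a ∧ (p : ℤ) ∣ b)) (hA : Inv A p a b) (h44 : A.card = 44) :
    p = 2 ∨ p = 3 ∨ p = 7 := by
  classical
  have hcos : ∀ m : ℤ, (p : ℤ) ∣ m → Real.cos (2 * Real.pi * m / p) = 1 := by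
    intro m hm
    have := (ang_eq hp.pos (m := m) (n := 0) (by simpa using hm)).1
    rw [this]; simp
  by_cases hp5 : 5 ≤ p
  · by_cases ha : (p : ℤ) ∣ a
    · have hb : ¬ (p : ℤ) ∣ b := fun hb => hab ⟨ha, hb⟩
      obtain ⟨s1, s2, s3⟩ := swap_facts h1 h2
      have := single s1 s2 hp hp5 hb (hcos a ha) hA.swap
      omega
    · by_cases hb : (p : ℤ) ∣ b
      · have := single h1 h2 hp hp5 ha (hcos b hb) hA
        omega
      · exact double h1 h2 hp ha hb hA h44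
  · have := hp.two_le
    have h4 : p ≠ 4 := by rintro rfl; revert hp; decide
    omega

end Pool.Agent.H66.KS
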