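import Pool.Agent.H16.KISS.Final

/-! # Kissing configurations in a three-dimensional coordinate subspace have at most 14 points -/

set_option autoImplicit false

namespace Pool.Agent.H66.KS

open Finset Pool.Agent.H16.KISS

/-- the last three coordinates -/
def t3 (x : E5) : Fin 3 → ℝ := ![x 2, x 3, x 4]

variable {X : Finset E5}

theorem psd_two3 (h1 : ∀ x ∈ X, ip x x = 1) (h0 : ∀ x ∈ X, x 0 = 0 ∧ x 1 = 0) :
    Psd X (fun x y => ip x y ^ 2 - 1 / 3) := by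
  refine ((psd_feat (X := X) Finset.univ (fun _ : Fin 3 × Fin 3 => (1 / 6 : ℝ))
    (fun _ _ => by norm_num) (fun i x => t3 x i.1 ^ 2 - t3 x i.2 ^ 2)).add
    (psd_feat (X := X) (Finset.univ.filter fun i : Fin 3 × Fin 3 => i.1 ≠ i.2)
      (fun _ => (1 : ℝ)) (fun _ _ => zero_le_one) (fun i x => t3 x i.1 * t3 x i.2))).congr ?_
  intro x hx y hy
  have hx0 := h0 x hx
  have hy0 := h0 y hy
  have e : ip x y ^ 2 - 1 / 3 * (ip x x * ip y y) =
      ∑ i : Fin 3 × Fin 3, 1 / 6 * ((t3 x i.1 ^ 2 - t3 x i.2 ^ 2) * (t3 y i.1 ^ 2 - t3 y i.2 ^ 2)) +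
      ∑ i ∈ Finset.univ.filter (fun i : Fin 3 × Fin 3 => i.1 ≠ i.2),
        (1 : ℝ) * (t3 x i.1 * t3 x i.2 * (t3 y i.1 * t3 y i.2)) := by
    rw [Finset.sum_filter]
    simp only [Fintype.sum_prod_type, Fin.sum_univ_five, Fin.sum_univ_three, ip, hx0.1, hx0.2,
      hy0.1, hy0.2, t3, Matrix.cons_val_zero, Matrix.cons_val_one, Matrix.cons_val]
    norm_num [Fin.ext_iff]
    ring
  rw [h1 x hx, h1 y hy] at e
  rw [← e]
  ring

theorem psd_three3 (h1 : ∀ x ∈ X, ip x x = 1) (h0 : ∀ x ∈ X, x 0 = 0 ∧ x 1 = 0) :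
    Psd X (fun x y => ip x y ^ 3 - 3 / 5 * ip x y) := by
  refine (((psd_feat (X := X) (Finset.univ.filter fun i : Fin 3 × Fin 3 => i.1 ≠ i.2)
      (fun _ => (1 / 5 : ℝ)) (fun _ _ => by norm_num)
      (fun i x => t3 x i.1 ^ 3 - 3 * t3 x i.2 ^ 2 * t3 x i.1)).add
    (psd_feat (X := X) (Finset.univ.filter fun i : Fin 3 × Fin 3 × Fin 3 =>
        i.1 ≠ i.2.1 ∧ i.1 ≠ i.2.2) (fun _ => (3 / 10 : ℝ)) (fun _ _ => by norm_num)
      (fun i x => t3 x i.1 * (t3 x i.2.1 ^ 2 - t3 x i.2.2 ^ 2)))).add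
    (psd_feat (X := X) (Finset.univ.filter fun i : Fin 3 × Fin 3 × Fin 3 =>
        i.1 ≠ i.2.1 ∧ i.1 ≠ i.2.2 ∧ i.2.1 ≠ i.2.2) (fun _ => (1 : ℝ)) (fun _ _ => zero_le_one)
      (fun i x => t3 x i.1 * t3 x i.2.1 * t3 x i.2.2))).congr ?_
  intro x hx y hy
  have hx0 := h0 x hx
  have hy0 := h0 y hy
  have e : ip x y ^ 3 - 3 / 5 * (ip x y * (ip x x * ip y y)) =
      ∑ i ∈ Finset.univ.filter (fun i : Fin 3 × Fin 3 => i.1 ≠ i.2),
        1 / 5 * ((t3 x i.1 ^ 3 - 3 * t3 x i.2 ^ 2 * t3 x i.1) *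
          (t3 y i.1 ^ 3 - 3 * t3 y i.2 ^ 2 * t3 y i.1)) +
      ∑ i ∈ Finset.univ.filter (fun i : Fin 3 × Fin 3 × Fin 3 => i.1 ≠ i.2.1 ∧ i.1 ≠ i.2.2),
        3 / 10 * ((t3 x i.1 * (t3 x i.2.1 ^ 2 - t3 x i.2.2 ^ 2)) *
          (t3 y i.1 * (t3 y i.2.1 ^ 2 - t3 y i.2.2 ^ 2))) +
      ∑ i ∈ Finset.univ.filter (fun i : Fin 3 × Fin 3 × Fin 3 =>
          i.1 ≠ i.2.1 ∧ i.1 ≠ i.2.2 ∧ i.2.1 ≠ i.2.2),
        (1 : ℝ) * ((t3 x i.1 * t3 x i.2.1 * t3 x i.2.2) *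
          (t3 y i.1 * t3 y i.2.1 * t3 y i.2.2)) := by
    rw [Finset.sum_filter, Finset.sum_filter, Finset.sum_filter]
    simp only [Fintype.sum_prod_type, Fin.sum_univ_five, Fin.sum_univ_three, ip, hx0.1, hx0.2,
      hy0.1, hy0.2, t3, Matrix.cons_val_zero, Matrix.cons_val_one, Matrix.cons_val]
    norm_num [Fin.ext_iff]
    ring
  rw [h1 x hx, h1 y hy] at e
  rw [← e]
  ring

/-- at most fourteen points -/
theorem card_three (h1 : ∀ x ∈ X, ip x x = 1) (h0 : ∀ x ∈ X, x 0 = 0 ∧ x 1 = 0)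
    (h2 : ∀ x ∈ X, ∀ y ∈ X, x ≠ y → ip x y ≤ 1 / 2) : X.card ≤ 14 := by
  have hpsd : Psd X (fun x y => (ip x y - 1 / 2) * (ip x y + 1) * (ip x y + 2 / 5) ^ 2 -
      7 / 50) := by
    refine (((((psd_three3 h1 h0).mul_ip).add
      ((psd_three3 h1 h0).smul (c := 13 / 10) (by norm_num))).add
      ((psd_two3 h1 h0).smul (c := 33 / 50) (by norm_num))).add
      (psd_ip.smul (c := 23 / 50) (by norm_num))).congr fun x _ y _ => ?_
    ring
  have h := hpsd fun _ => 1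
  simp only [one_mul] at h
  have hle : ∀ x ∈ X, ∑ y ∈ X, ((ip x y - 1 / 2) * (ip x y + 1) * (ip x y + 2 / 5) ^ 2 - 7 / 50) ≤
      49 / 25 - 7 / 50 * (X.card : ℝ) := by
    intro x hx
    rw [Finset.sum_sub_distrib, Finset.sum_const, nsmul_eq_mul, ← Finset.add_sum_erase X _ hx,
      h1 x hx]
    have hneg : ∑ y ∈ X.erase x, (ip x y - 1 / 2) * (ip x y + 1) * (ip x y + 2 / 5) ^ 2 ≤ 0 := by
      refine Finset.sum_nonpos fun y hy => ?_
      rw [Finset.mem_erase] at hy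
      have a := h2 x hx y hy.2 (Ne.symm hy.1)
      have b : -1 ≤ ip x y := by
        have hs : 0 ≤ ip (x + y) (x + y) := by
          unfold ip
          exact Finset.sum_nonneg fun i _ => mul_self_nonneg _
        have he : ip (x + y) (x + y) = ip x x + ip y y + 2 * ip x y := by
          simp only [ip, Fin.sum_univ_five, PiLp.add_apply]
          ring
        rw [he, h1 x hx, h1 y hy.2] at hs
        linarith
      exact mul_nonpos_of_nonpos_of_nonneg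
        (mul_nonpos_of_nonpos_of_nonneg (by linarith) (by linarith)) (sq_nonneg _)
    norm_num
    linarith
  have h3 : (0 : ℝ) ≤ X.card * (49 / 25 - 7 / 50 * (X.card : ℝ)) := by
    refine h.trans ((Finset.sum_le_sum hle).trans_eq ?_)
    rw [Finset.sum_const, nsmul_eq_mul]
  by_contra hcon
  have h15 : (15 : ℝ) ≤ X.card := by exact_mod_cast (by omega : 15 ≤ X.card)
  nlinarith

end Pool.Agent.H66.KS
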