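import Pool.Agent.H66.KS.Rot
import Pool.Agent.H66.KS.Three

/-! # Rotations of order five in one plane -/

set_option autoImplicit false

namespace Pool.Agent.H66.KS

open Finset Pool.Agent.H16.KISS

/-- five values at a regular pentagon -/
theorem pent {P Q c s : ℝ} (hc : 4 * c ^ 2 + 2 * c - 1 = 0) (hs : s ^ 2 + c ^ 2 = 1)
    (a0 : P ≤ 1 / 2) (a1 : c * P + s * Q ≤ 1 / 2) (a4 : c * P - s * Q ≤ 1 / 2)
    (a2 : (2 * c ^ 2 - 1) * P + 2 * s * c * Q ≤ 1 / 2)
    (a3 : (2 * c ^ 2 - 1) * P - 2 * s * c * Q ≤ 1 / 2) : P ^ 2 + Q ^ 2 ≤ 1 / 2 := by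
  obtain ⟨d, hd⟩ : ∃ d, d = 2 * c ^ 2 - 1 := ⟨_, rfl⟩
  obtain ⟨u, hu⟩ : ∃ u, u = 2 * s * c := ⟨_, rfl⟩
  rw [← hd, ← hu] at a2 a3
  have hd' : d = -1 / 2 - c := by rw [hd]; linarith
  have hu2 : u ^ 2 = 1 - d ^ 2 := by
    rw [hu, hd]
    linear_combination 4 * c ^ 2 * hs
  have hs2 : s ^ 2 = 1 - c ^ 2 := by linarith
  obtain ⟨R, hR⟩ : ∃ R, R = P ^ 2 + Q ^ 2 := ⟨_, rfl⟩
  have F3 : c ^ 3 + d ^ 3 = -1 / 2 := by
    rw [hd']
    linear_combination (-3 / 8) * hc
  have F2 : c ^ 2 + d ^ 2 = 3 / 4 := by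
    rw [hd']
    linear_combination (1 / 2) * hc
  have key : (1 / 2 - P) * (P + R) ^ 2 + (1 / 2 - (c * P + s * Q)) * (c * P + s * Q + R) ^ 2 +
      (1 / 2 - (c * P - s * Q)) * (c * P - s * Q + R) ^ 2 +
      (1 / 2 - (d * P + u * Q)) * (d * P + u * Q + R) ^ 2 +
      (1 / 2 - (d * P - u * Q)) * (d * P - u * Q + R) ^ 2 = 5 / 4 * R * (1 - 2 * R) := by
    have S1 : P + (c * P + s * Q) + (c * P - s * Q) + (d * P + u * Q) + (d * P - u * Q) = 0 := by
      rw [hd']; ring
    have S2 : P ^ 2 + (c * P + s * Q) ^ 2 + (c * P - s * Q) ^ 2 + (d * P + u * Q) ^ 2 +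
        (d * P - u * Q) ^ 2 = 5 / 2 * R := by
      rw [hR]
      linear_combination 2 * P ^ 2 * F2 + 2 * Q ^ 2 * hs2 + 2 * Q ^ 2 * hu2 - 2 * Q ^ 2 * F2
    have S3 : P ^ 3 + (c * P + s * Q) ^ 3 + (c * P - s * Q) ^ 3 + (d * P + u * Q) ^ 3 +
        (d * P - u * Q) ^ 3 = 0 := by
      have e : P ^ 3 + (c * P + s * Q) ^ 3 + (c * P - s * Q) ^ 3 + (d * P + u * Q) ^ 3 +
        (d * P - u * Q) ^ 3 = P ^ 3 * (1 + 2 * (c ^ 3 + d ^ 3)) +
          6 * P * Q ^ 2 * (c * s ^ 2 + d * u ^ 2) := by ring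
      have e2 : c * s ^ 2 + d * u ^ 2 = (c + d) - (c ^ 3 + d ^ 3) := by
        rw [hs2, hu2]; ring
      rw [e, e2, F3, hd']
      ring
    linear_combination (R - R ^ 2) * S1 + (1 / 2 - 2 * R) * S2 - S3
  have hpos : 0 ≤ 5 / 4 * R * (1 - 2 * R) := by
    rw [← key]
    have b0 := mul_nonneg (sub_nonneg.mpr a0) (sq_nonneg (P + R))
    have b1 := mul_nonneg (sub_nonneg.mpr a1) (sq_nonneg (c * P + s * Q + R))
    have b2 := mul_nonneg (sub_nonneg.mpr a4) (sq_nonneg (c * P - s * Q + R))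
    have b3 := mul_nonneg (sub_nonneg.mpr a2) (sq_nonneg (d * P + u * Q + R))
    have b4 := mul_nonneg (sub_nonneg.mpr a3) (sq_nonneg (d * P - u * Q + R))
    linarith
  rw [← hR]
  by_contra hcon
  push Not at hcon
  nlinarith

/-- at most four vectors of `ℝ ^ 3` have pairwise negative inner products -/
theorem neg_four (H : Finset (Fin 3 → ℝ)) (hH : ∀ u ∈ H, ∀ v ∈ H, u ≠ v → ∑ i, u i * v i < 0) :
    H.card ≤ 4 := by
  classical
  rcases H.eq_empty_or_nonempty with h | ⟨w, hw⟩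
  · rw [h]; simp
  have hli : LinearIndependent ℝ (fun u : {u // u ∈ H.erase w} => (u : Fin 3 → ℝ)) := by
    rw [Fintype.linearIndependent_iff]
    intro g hg
    have hpt : ∀ i : Fin 3, ∑ u : {u // u ∈ H.erase w}, g u * u.1 i = 0 := by
      intro i
      have := congrFun hg i
      simpa [Finset.sum_apply] using this
    obtain ⟨p, hp⟩ : ∃ p : Fin 3 → ℝ, p = fun i => ∑ u : {u // u ∈ H.erase w}, max (g u) 0 * u.1 i :=
      ⟨_, rfl⟩
    have hp2 : ∀ i, p i = ∑ u : {u // u ∈ H.erase w}, max (-g u) 0 * u.1 i := by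
      intro i
      rw [hp]
      have e : ∀ u : {u // u ∈ H.erase w}, max (g u) 0 * u.1 i =
          g u * u.1 i + max (-g u) 0 * u.1 i := by
        intro u
        rcases le_total 0 (g u) with h | h
        · rw [max_eq_left h, max_eq_right (by linarith : -g u ≤ 0)]; ring
        · rw [max_eq_right h, max_eq_left (by linarith : 0 ≤ -g u)]; ring
      show ∑ u : {u // u ∈ H.erase w}, max (g u) 0 * u.1 i = _
      rw [Finset.sum_congr rfl fun u _ => e u, Finset.sum_add_distrib, hpt i, zero_add]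
    have hpp : ∑ i, p i * p i ≤ 0 := by
      have e : ∑ i, p i * p i = ∑ u : {u // u ∈ H.erase w}, ∑ v : {u // u ∈ H.erase w},
          max (g u) 0 * max (-g v) 0 * ∑ i, u.1 i * v.1 i := by
        have e1 : ∀ i, p i * p i = ∑ u : {u // u ∈ H.erase w}, ∑ v : {u // u ∈ H.erase w},
            max (g u) 0 * max (-g v) 0 * (u.1 i * v.1 i) := by
          intro i
          have e0 : p i * p i = (∑ u : {u // u ∈ H.erase w}, max (g u) 0 * u.1 i) *
              ∑ v : {u // u ∈ H.erase w}, max (-g v) 0 * v.1 i := by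
            rw [← hp2 i, hp]
          rw [e0, Finset.sum_mul_sum]
          exact Finset.sum_congr rfl fun u _ => Finset.sum_congr rfl fun v _ => by ring
        rw [Finset.sum_congr rfl fun i _ => e1 i, Finset.sum_comm]
        refine Finset.sum_congr rfl fun u _ => ?_
        rw [Finset.sum_comm]
        refine Finset.sum_congr rfl fun v _ => ?_
        rw [Finset.mul_sum]
      rw [e]
      refine Finset.sum_nonpos fun u _ => Finset.sum_nonpos fun v _ => ?_
      by_cases huv : u = v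
      · subst huv
        rcases le_total 0 (g u) with h | h
        · rw [max_eq_right (by linarith : -g u ≤ 0)]; simp
        · rw [max_eq_right h]; simp
      · have h1 := hH u.1 (Finset.mem_of_mem_erase u.2) v.1 (Finset.mem_of_mem_erase v.2)
          (fun h => huv (Subtype.ext h))
        exact mul_nonpos_of_nonneg_of_nonpos
          (mul_nonneg (le_max_right _ _) (le_max_right _ _)) h1.le
    have hp0 : ∀ i, p i = 0 := by
      have h2 : ∑ i, p i * p i = 0 :=
        le_antisymm hpp (Finset.sum_nonneg fun i _ => mul_self_nonneg _)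
      intro i
      have h3 := (Finset.sum_eq_zero_iff_of_nonneg fun i _ => mul_self_nonneg (p i)).mp h2 i
        (Finset.mem_univ i)
      exact mul_self_eq_zero.mp h3
    have hfin : ∀ f : {u // u ∈ H.erase w} → ℝ, (∀ u, 0 ≤ f u) →
        (∀ i, ∑ u : {u // u ∈ H.erase w}, f u * u.1 i = 0) → ∀ u, f u = 0 := by
      intro f hf h0
      have h4 : ∑ u : {u // u ∈ H.erase w}, f u * (-∑ i, u.1 i * w i) = 0 := by
        have e : ∑ u : {u // u ∈ H.erase w}, f u * (-∑ i, u.1 i * w i) =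
            -∑ i, (∑ u : {u // u ∈ H.erase w}, f u * u.1 i) * w i := by
          rw [← Finset.sum_neg_distrib]
          simp only [Finset.sum_mul, ← Finset.sum_neg_distrib, Finset.mul_sum]
          rw [Finset.sum_comm]
          exact Finset.sum_congr rfl fun u _ => Finset.sum_congr rfl fun i _ => by ring
        rw [e, neg_eq_zero]
        exact Finset.sum_eq_zero fun i _ => by rw [h0 i, zero_mul]
      have hneg : ∀ u : {u // u ∈ H.erase w}, 0 < -∑ i, u.1 i * w i := fun u => by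
        have := hH u.1 (Finset.mem_of_mem_erase u.2) w hw (Finset.ne_of_mem_erase u.2)
        linarith
      intro u
      have h5 := (Finset.sum_eq_zero_iff_of_nonneg
        (fun u _ => mul_nonneg (hf u) (hneg u).le)).mp h4 u (Finset.mem_univ u)
      exact (mul_eq_zero.mp h5).resolve_right (hneg u).ne'
    have hA := hfin (fun u => max (g u) 0) (fun u => le_max_right _ _)
      (fun i => by have := hp0 i; rw [hp] at this; exact this)
    have hB := hfin (fun u => max (-g u) 0) (fun u => le_max_right _ _)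
      (fun i => by rw [← hp2 i]; exact hp0 i)
    intro u
    have h6 : g u ≤ 0 := by
      have : max (g u) 0 = 0 := hA u
      exact (max_eq_right_iff.mp this)
    have h7 : -g u ≤ 0 := by
      have : max (-g u) 0 = 0 := hB u
      exact (max_eq_right_iff.mp this)
    linarith
  have hcard := hli.fintype_card_le_finrank
  rw [Module.finrank_fintype_fun_eq_card, Fintype.card_fin, Fintype.card_coe,
    Finset.card_erase_of_mem hw] at hcard
  omega

/-- nonfixed points of a kissing configuration invariant under the rotation by `2π/5` of the first plane -/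
theorem card_nonfixed {A : Finset E5} (h1 : ∀ x ∈ A, ip x x = 1)
    (h2 : ∀ x ∈ A, ∀ y ∈ A, x ≠ y → ip x y ≤ 1 / 2)
    (hT : ∀ x ∈ A, rot (2 * Real.pi / 5) 0 x ∈ A) (B : Finset E5) (hBA : ∀ x ∈ B, x ∈ A)
    (hB : ∀ x ∈ B, ¬ (x 0 = 0 ∧ x 1 = 0)) : B.card ≤ 20 := by
  classical
  obtain ⟨θ, hθ⟩ : ∃ θ, θ = 2 * Real.pi / 5 := ⟨_, rfl⟩
  rw [← hθ] at hT
  obtain ⟨c, hc⟩ : ∃ c, c = Real.cos θ := ⟨_, rfl⟩
  obtain ⟨s, hs⟩ : ∃ s, s = Real.sin θ := ⟨_, rfl⟩
  have hsc : s ^ 2 + c ^ 2 = 1 := by rw [hc, hs]; exact Real.sin_sq_add_cos_sq θ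
  have hcq : 4 * c ^ 2 + 2 * c - 1 = 0 := by
    have e1 : c = 2 * Real.cos (Real.pi / 5) ^ 2 - 1 := by
      rw [hc, hθ, ← Real.cos_two_mul]
      congr 1
      ring
    have e2 := Real.cos_pi_div_five
    rw [e2] at e1
    have h5 : (√5 : ℝ) ^ 2 = 5 := Real.sq_sqrt (by norm_num)
    have e3 : c = (√5 - 1) / 4 := by
      rw [e1]
      linear_combination (1 / 8) * h5
    rw [e3]
    linear_combination (1 / 4) * h5
  have hc0 : 0 < c := by
    rw [hc, hθ]
    apply Real.cos_pos_of_mem_Ioo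
    constructor <;> linarith [Real.pi_pos]
  have hc3 : 3 / 10 < c := by nlinarith
  have hc1 : c < 1 := by nlinarith
  have c2 : Real.cos (2 * θ) = 2 * c ^ 2 - 1 := by rw [Real.cos_two_mul, hc]
  have s2 : Real.sin (2 * θ) = 2 * s * c := by rw [Real.sin_two_mul, hs, hc]
  have e5 : 5 * θ = 2 * Real.pi := by rw [hθ]; ring
  have c3 : Real.cos (3 * θ) = 2 * c ^ 2 - 1 := by
    rw [show 3 * θ = 2 * Real.pi - 2 * θ by linarith, Real.cos_two_pi_sub, c2]
  have s3 : Real.sin (3 * θ) = -(2 * s * c) := by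
    rw [show 3 * θ = 2 * Real.pi - 2 * θ by linarith, Real.sin_two_pi_sub, s2]
  have c4 : Real.cos (4 * θ) = c := by
    rw [show 4 * θ = 2 * Real.pi - θ by linarith, Real.cos_two_pi_sub, hc]
  have s4 : Real.sin (4 * θ) = -s := by
    rw [show 4 * θ = 2 * Real.pi - θ by linarith, Real.sin_two_pi_sub, hs]
  have hit : ∀ k : ℕ, ∀ x ∈ A, rot (k * θ) 0 x ∈ A := by
    intro k x hx
    have := iter_mem hT k hx
    rwa [mul_zero] at this
  -- the radius of a nonfixed point
  have hrad : ∀ x ∈ B, 5 / 7 < x 0 ^ 2 + x 1 ^ 2 := by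
    intro x hx
    have hxA := hBA x hx
    have hne : rot θ 0 x ≠ x := by
      intro h
      exact hB x hx (fix01 h (by rw [← hc]; exact hc1.ne))
    have h := h2 _ (hT x hxA) x hxA hne
    have hxx := h1 x hxA
    rw [ip_rot, Real.cos_zero, Real.sin_zero, ← hc] at h
    unfold ip at hxx
    rw [Fin.sum_univ_five] at hxx
    have hpos : 0 ≤ x 0 ^ 2 + x 1 ^ 2 := by positivity
    have h' : 1 / 2 ≤ (1 - c) * (x 0 ^ 2 + x 1 ^ 2) := by nlinarith
    nlinarith
  -- two points in different orbits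
  have hneg : ∀ x ∈ B, ∀ y ∈ B, (∀ k ∈ Finset.range 5, rot (k * θ) 0 x ≠ y) →
      ∑ i, t3 x i * t3 y i < 0 := by
    intro x hx y hy hk
    have hxA := hBA x hx
    have hyA := hBA y hy
    have g : ∀ k ∈ Finset.range 5, ip (rot (k * θ) 0 x) y ≤ 1 / 2 := fun k hk' =>
      h2 _ (hit k x hxA) y hyA (hk k hk')
    have g0 := g 0 (by simp)
    have g1 := g 1 (by simp)
    have g2 := g 2 (by simp)
    have g3 := g 3 (by simp)
    have g4 := g 4 (by simp)
    rw [ip_rot] at g0 g1 g2 g3 g4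
    push_cast at g0 g1 g2 g3 g4
    rw [zero_mul, Real.cos_zero, Real.sin_zero] at g0
    rw [one_mul, Real.cos_zero, Real.sin_zero, ← hc, ← hs] at g1
    rw [Real.cos_zero, Real.sin_zero, c2, s2] at g2
    rw [Real.cos_zero, Real.sin_zero, c3, s3] at g3
    rw [Real.cos_zero, Real.sin_zero, c4, s4] at g4
    have et : ∑ i, t3 x i * t3 y i = x 2 * y 2 + x 3 * y 3 + x 4 * y 4 := by
      rw [Fin.sum_univ_three]
      simp [t3]
    rw [et]
    by_contra hcon
    push Not at hcon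
    have hp := pent (P := x 0 * y 0 + x 1 * y 1) (Q := x 0 * y 1 - x 1 * y 0) hcq hsc
      (by linarith) (by linarith) (by linarith) (by linarith) (by linarith)
    have e : (x 0 * y 0 + x 1 * y 1) ^ 2 + (x 0 * y 1 - x 1 * y 0) ^ 2 =
        (x 0 ^ 2 + x 1 ^ 2) * (y 0 ^ 2 + y 1 ^ 2) := by ring
    rw [e] at hp
    have hx2 := hrad x hx
    have hy2 := hrad y hy
    nlinarith
  have hfib : ∀ a ∈ B.image t3, (B.filter fun x => t3 x = a).card ≤ 5 := by
    intro a ha
    obtain ⟨x, hx, hxa⟩ := Finset.mem_image.mp ha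
    have hsub : (B.filter fun y => t3 y = a) ⊆
        (Finset.range 5).image fun k : ℕ => rot (k * θ) 0 x := by
      intro y hy
      rw [Finset.mem_filter] at hy
      by_contra hcon
      have h := hneg x hx y hy.1 (fun k hk h => hcon (Finset.mem_image.mpr ⟨k, hk, h⟩))
      rw [hy.2, hxa] at h
      have : 0 ≤ ∑ i, a i * a i := Finset.sum_nonneg fun i _ => mul_self_nonneg _
      linarith
    refine (Finset.card_le_card hsub).trans (Finset.card_image_le.trans ?_)
    rw [Finset.card_range]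
  have himg : (B.image t3).card ≤ 4 := by
    refine neg_four _ fun u hu v hv huv => ?_
    obtain ⟨x, hx, hxu⟩ := Finset.mem_image.mp hu
    obtain ⟨y, hy, hyv⟩ := Finset.mem_image.mp hv
    rw [← hxu, ← hyv]
    refine hneg x hx y hy fun k _ h => huv ?_
    rw [← hxu, ← hyv, ← h]
    funext i
    fin_cases i
    · show x 2 = rot (k * θ) 0 x 2
      rw [rot_2, Real.cos_zero, Real.sin_zero]; ring
    · show x 3 = rot (k * θ) 0 x 3
      rw [rot_3, Real.cos_zero, Real.sin_zero]; ring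
    · show x 4 = rot (k * θ) 0 x 4
      rw [rot_4]
  have := Finset.card_le_mul_card_image B 5 hfib
  omega

end Pool.Agent.H66.KS
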