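import Pool.Agent.H66.KS.Five

/-! # Symmetries of prime order of 44-point kissing configurations in dimension five -/

set_option autoImplicit false

namespace Pool.Agent.H66.KS

open Finset Pool.Agent.H16.KISS

theorem rot_congr {α β α' β' : ℝ} (h1 : Real.cos α = Real.cos α') (h2 : Real.sin α = Real.sin α')
    (h3 : Real.cos β = Real.cos β') (h4 : Real.sin β = Real.sin β') (x : E5) :
    rot α β x = rot α' β' x := by
  refine ext5 ?_ ?_ ?_ ?_ ?_
  · rw [rot_0, rot_0, h1, h2]
  · rw [rot_1, rot_1, h1, h2]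
  · rw [rot_2, rot_2, h3, h4]
  · rw [rot_3, rot_3, h3, h4]
  · rw [rot_4, rot_4]

/-- angles which are congruent multiples of `2π/p` -/
theorem ang_eq {p : ℕ} (hp : 0 < p) {m n : ℤ} (h : (p : ℤ) ∣ m - n) :
    Real.cos (2 * Real.pi * m / p) = Real.cos (2 * Real.pi * n / p) ∧
      Real.sin (2 * Real.pi * m / p) = Real.sin (2 * Real.pi * n / p) := by
  obtain ⟨k, hk⟩ := h
  have hp' : (p : ℝ) ≠ 0 := by exact_mod_cast hp.ne'
  have e : (m : ℝ) = n + p * k := by
    have : m = n + p * k := by linarith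
    rw [this]; push_cast; ring
  have e2 : 2 * Real.pi * m / p = 2 * Real.pi * n / p + k * (2 * Real.pi) := by
    rw [e]; field_simp
  rw [e2, Real.cos_add_int_mul_two_pi, Real.sin_add_int_mul_two_pi]
  exact ⟨rfl, rfl⟩

theorem cos_ne_one {p : ℕ} (hp : 0 < p) {m : ℤ} (h : ¬ (p : ℤ) ∣ m) :
    Real.cos (2 * Real.pi * m / p) ≠ 1 := by
  intro h1
  rw [Real.cos_eq_one_iff] at h1
  obtain ⟨n, hn⟩ := h1
  have hp' : (p : ℝ) ≠ 0 := by exact_mod_cast hp.ne'
  have hpi := Real.pi_pos.ne'
  have e : (n : ℝ) * p = m := by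
    field_simp at hn
    linarith
  exact h ⟨n, by rw [mul_comm]; exact_mod_cast e.symm⟩

/-- `k a ≡ 1` has a solution -/
theorem exists_inv {p : ℕ} (hp : p.Prime) {a : ℤ} (ha : ¬ (p : ℤ) ∣ a) :
    ∃ k : ℕ, (p : ℤ) ∣ k * a - 1 := by
  haveI : Fact p.Prime := ⟨hp⟩
  have h0 : (a : ZMod p) ≠ 0 := by
    intro h
    exact ha ((ZMod.intCast_zmod_eq_zero_iff_dvd a p).mp h)
  refine ⟨((a : ZMod p)⁻¹).val, ?_⟩
  rw [← ZMod.intCast_zmod_eq_zero_iff_dvd]
  push_cast
  rw [ZMod.natCast_val, ZMod.cast_id, inv_mul_cancel₀ h0, sub_self]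

theorem single {A : Finset E5} (h1 : ∀ x ∈ A, ip x x = 1)
    (h2 : ∀ x ∈ A, ∀ y ∈ A, x ≠ y → ip x y ≤ 1 / 2) {p : ℕ} (hp : p.Prime) (hp5 : 5 ≤ p) {a : ℤ}
    (ha : ¬ (p : ℤ) ∣ a) {β : ℝ} (hβ : Real.cos β = 1)
    (hA : ∀ x ∈ A, rot (2 * Real.pi * a / p) β x ∈ A) : A.card ≤ 34 := by
  classical
  have hp0 : 0 < p := hp.pos
  have hpr : (0 : ℝ) < p := by exact_mod_cast hp0
  have hsβ : Real.sin β = 0 := by
    have := Real.sin_sq_add_cos_sq β
    rw [hβ] at this
    nlinarith
  have hA' : ∀ x ∈ A, rot (2 * Real.pi * a / p) 0 x ∈ A := by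
    intro x hx
    have := hA x hx
    rwa [rot_congr rfl rfl (hβ.trans Real.cos_zero.symm) (hsβ.trans Real.sin_zero.symm)] at this
  obtain ⟨k, hk⟩ := exists_inv hp ha
  have hT : ∀ x ∈ A, rot (2 * Real.pi / p) 0 x ∈ A := by
    intro x hx
    have h := iter_mem hA' k hx
    have e := ang_eq hp0 hk
    rw [mul_zero] at h
    have e1 : (k : ℝ) * (2 * Real.pi * a / p) = 2 * Real.pi * ((k * a : ℤ) : ℝ) / p := by
      push_cast; ring
    have e2 : 2 * Real.pi * ((1 : ℤ) : ℝ) / p = 2 * Real.pi / p := by push_cast; ring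
    rw [e2] at e
    rw [e1, rot_congr e.1 e.2 rfl rfl] at h
    exact h
  have hfix : (A.filter fun x => x 0 = 0 ∧ x 1 = 0).card ≤ 14 := by
    refine card_three (fun x hx => h1 x (Finset.mem_filter.mp hx).1)
      (fun x hx => (Finset.mem_filter.mp hx).2) fun x hx y hy hxy =>
        h2 x (Finset.mem_filter.mp hx).1 y (Finset.mem_filter.mp hy).1 hxy
  have hnon : (A.filter fun x => ¬ (x 0 = 0 ∧ x 1 = 0)).card ≤ 20 := by
    rcases Nat.lt_or_ge 5 p with h5 | h5
    · -- no nonfixed points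
      have hempty : A.filter (fun x => ¬ (x 0 = 0 ∧ x 1 = 0)) = ∅ := by
        rw [Finset.filter_eq_empty_iff]
        intro x hx hcon
        have h6 : p ≠ 6 := by rintro rfl; revert hp; decide
        have h7 : (7 : ℝ) ≤ p := by exact_mod_cast (by omega : 7 ≤ p)
        have hang : 2 * Real.pi / p < Real.pi / 3 := by
          rw [div_lt_div_iff₀ hpr (by norm_num)]
          nlinarith [Real.pi_pos]
        have hang0 : 0 < 2 * Real.pi / p := by positivity
        have hcos : 1 / 2 < Real.cos (2 * Real.pi / p) := by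
          rw [← Real.cos_pi_div_three]
          exact Real.cos_lt_cos_of_nonneg_of_le_pi hang0.le
            (by linarith [Real.pi_pos]) hang
        have hcos1 : Real.cos (2 * Real.pi / p) ≠ 1 := by
          have := cos_ne_one hp0 (m := 1) (by
            intro h
            have := Int.eq_one_of_dvd_one (by positivity) h
            have : p = 1 := by exact_mod_cast this
            omega)
          push_cast at this
          rwa [mul_one] at this
        have hne : rot (2 * Real.pi / p) 0 x ≠ x := fun h => hcon (fix01 h hcos1)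
        have h := h2 _ (hT x hx) x hx hne
        have hxx := h1 x hx
        rw [ip_rot, Real.cos_zero, Real.sin_zero] at h
        unfold ip at hxx
        rw [Fin.sum_univ_five] at hxx
        have hle := Real.cos_le_one (2 * Real.pi / p)
        nlinarith [sq_nonneg (x 0), sq_nonneg (x 1), sq_nonneg (x 2), sq_nonneg (x 3),
          sq_nonneg (x 4)]
      rw [hempty]; simp
    · have hp5' : p = 5 := by omega
      subst hp5'
      refine card_nonfixed h1 h2 ?_ _ (fun x hx => (Finset.mem_filter.mp hx).1)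
        (fun x hx => (Finset.mem_filter.mp hx).2)
      intro x hx
      exact_mod_cast hT x hx
  have := Finset.card_filter_add_card_filter_not (s := A) (fun x : E5 => x 0 = 0 ∧ x 1 = 0)
  omega

end Pool.Agent.H66.KS
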