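import Pool.Agent.H66.KS.Main

/-! # The normal form of an isometry of odd prime order of `ℝ ^ 5` -/

set_option autoImplicit false

namespace Pool.Agent.H66.KS

open Finset Pool.Agent.H16.KISS Module

theorem flip_inner (g : E5 ≃ₗᵢ[ℝ] E5) (x y : E5) : inner ℝ (g x) y = inner ℝ x (g.symm y) := by
  rw [← g.inner_map_map x (g.symm y), g.apply_symm_apply]

/-- linear maps which are adjoint to each other have the same determinant -/
theorem det_adj (f f' : E5 →ₗ[ℝ] E5) (h : ∀ x y, inner ℝ (f x) y = inner ℝ x (f' y)) :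
    LinearMap.det f = LinearMap.det f' := by
  classical
  let b : OrthonormalBasis (Fin 5) ℝ E5 := EuclideanSpace.basisFun (Fin 5) ℝ
  rw [← LinearMap.det_toMatrix b.toBasis f, ← LinearMap.det_toMatrix b.toBasis f',
    ← Matrix.det_transpose]
  congr 1
  ext i j
  rw [Matrix.transpose_apply, LinearMap.toMatrix_apply, LinearMap.toMatrix_apply]
  simp only [OrthonormalBasis.coe_toBasis, OrthonormalBasis.coe_toBasis_repr_apply,
    OrthonormalBasis.repr_apply_apply]
  rw [← h, real_inner_comm]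

theorem pow_apply_eq {g : E5 ≃ₗᵢ[ℝ] E5} {x : E5} (h : g x = x) (k : ℕ) : (g ^ k) x = x := by
  induction k with
  | zero => rfl
  | succ k ih => rw [pow_succ']; show g ((g ^ k) x) = x; rw [ih, h]

/-- a fixed unit vector -/
theorem fixed_vec (g : E5 ≃ₗᵢ[ℝ] E5) {p : ℕ} (hodd : Odd p) (hgp : g ^ p = 1) :
    ∃ e : E5, ‖e‖ = 1 ∧ g e = e := by
  obtain ⟨L, hL⟩ : ∃ L : E5 →ₗ[ℝ] E5, L = g.toLinearEquiv.toLinearMap := ⟨_, rfl⟩
  obtain ⟨L', hL'⟩ : ∃ L' : E5 →ₗ[ℝ] E5, L' = g.symm.toLinearEquiv.toLinearMap := ⟨_, rfl⟩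
  have hLx : ∀ x, L x = g x := fun x => by rw [hL]; rfl
  have hLx' : ∀ x, L' x = g.symm x := fun x => by rw [hL']; rfl
  have hadj : ∀ x y, inner ℝ (L x) y = inner ℝ x (L' y) := fun x y => by
    rw [hLx, hLx']; exact flip_inner g x y
  have hpow : ∀ k : ℕ, ∀ x, (L ^ k) x = (g ^ k) x := by
    intro k
    induction k with
    | zero => intro x; rfl
    | succ k ih =>
      intro x
      rw [pow_succ', pow_succ']
      show L ((L ^ k) x) = g ((g ^ k) x)
      rw [ih, hLx]
  have hLp : L ^ p = 1 := by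
    ext1 x
    rw [hpow, hgp]
    rfl
  have hdet : LinearMap.det L = 1 := by
    have h : (LinearMap.det L) ^ p = 1 := by rw [← map_pow, hLp, map_one]
    have h' : (LinearMap.det L) ^ p = 1 ^ p := by rw [h, one_pow]
    exact hodd.strictMono_pow.injective h'
  have e1 : L - 1 = L * (1 - L') := by
    ext1 x
    show L x - x = L (x - L' x)
    rw [map_sub, hLx, hLx, hLx', g.apply_symm_apply]
  have e2 : LinearMap.det (1 - L) = LinearMap.det (1 - L') := by
    refine det_adj _ _ fun x y => ?_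
    show inner ℝ (x - L x) y = inner ℝ x (y - L' y)
    rw [inner_sub_left, inner_sub_right, hadj]
  have e3 : LinearMap.det (1 - L) = -LinearMap.det (L - 1) := by
    have : (1 - L : E5 →ₗ[ℝ] E5) = (-1 : ℝ) • (L - 1) := by
      rw [neg_one_smul, neg_sub]
    rw [this, LinearMap.det_smul, finrank_euclideanSpace_fin]
    norm_num
  have e4 : LinearMap.det (L - 1) = 0 := by
    have h := congrArg LinearMap.det e1
    rw [map_mul, hdet, one_mul, ← e2, e3] at h
    linarith
  obtain ⟨v, hv, hv0⟩ := (Submodule.ne_bot_iff _).mp (LinearMap.bot_lt_ker_of_det_eq_zero e4).ne'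
  have hgv : g v = v := by
    have h : L v - v = 0 := hv
    rw [← hLx]; exact sub_eq_zero.mp h
  refine ⟨‖v‖⁻¹ • v, ?_, ?_⟩
  · rw [norm_smul, norm_inv, norm_norm, inv_mul_cancel₀ (norm_ne_zero_iff.mpr hv0)]
  · rw [map_smul, hgv]

/-- an eigenvector of `g + g⁻¹` which is not fixed -/
theorem moved_vec (g : E5 ≃ₗᵢ[ℝ] E5) (hg : g ≠ 1) :
    ∃ (v : E5) (l : ℝ), ‖v‖ = 1 ∧ g v + g.symm v = l • v ∧ g v ≠ v := by
  obtain ⟨T, hT⟩ : ∃ T : E5 →ₗ[ℝ] E5,
    T = g.toLinearEquiv.toLinearMap + g.symm.toLinearEquiv.toLinearMap := ⟨_, rfl⟩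
  have hTx : ∀ x, T x = g x + g.symm x := fun x => by rw [hT]; rfl
  have hsym : T.IsSymmetric := by
    intro x y
    rw [hTx, hTx, inner_add_left, inner_add_right, flip_inner g, flip_inner g.symm,
      LinearIsometryEquiv.symm_symm]
    ring
  let b := hsym.eigenvectorBasis (finrank_euclideanSpace_fin (𝕜 := ℝ) (n := 5))
  by_contra hcon
  push Not at hcon
  have hfix : ∀ i, g (b i) = b i := by
    intro i
    refine hcon (b i) (hsym.eigenvalues (finrank_euclideanSpace_fin (𝕜 := ℝ) (n := 5)) i)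
      (b.norm_eq_one i) ?_
    rw [← hTx]
    exact hsym.apply_eigenvectorBasis _ i
  apply hg
  have h : g.toLinearEquiv.toLinearMap = LinearMap.id := b.toBasis.ext fun i => by
    rw [OrthonormalBasis.coe_toBasis]
    exact hfix i
  ext1 x
  have := congrArg (fun f : E5 →ₗ[ℝ] E5 => f x) h
  exact this

end Pool.Agent.H66.KS
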