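import Pool.Agent.H66.KS.Norm
import Pool.Agent.H66.KS.Eleven

/-! # The normal form of an isometry of odd prime order of `ℝ ^ 5`: conclusion -/

set_option autoImplicit false

namespace Pool.Agent.H66.KS

open Finset Pool.Agent.H16.KISS Module

theorem two_fix {g : E5 ≃ₗᵢ[ℝ] E5} {p : ℕ} (hodd : Odd p) (hgp : g ^ p = 1) {x : E5}
    (h : g (g x) = x) : g x = x := by
  obtain ⟨m, rfl⟩ := hodd
  have h2 : ∀ k : ℕ, (g ^ (2 * k)) x = x := by
    intro k
    induction k with
    | zero => rfl
    | succ k ih =>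
      rw [show 2 * (k + 1) = (2 * k + 1) + 1 by ring, pow_succ', pow_succ']
      show g (g ((g ^ (2 * k)) x)) = x
      rw [ih, h]
  have h3 : (g ^ (2 * m + 1)) x = x := by rw [hgp]; rfl
  rw [pow_succ'] at h3
  have h4 : g ((g ^ (2 * m)) x) = x := h3
  rwa [h2] at h4

theorem unit_polar {P Q : ℝ} (h : P ^ 2 + Q ^ 2 = 1) : ∃ θ : ℝ, Real.cos θ = P ∧ Real.sin θ = Q := by
  obtain ⟨a, θ, ha, h1, h2, h3⟩ := polar P (-Q)
  have ha1 : a = 1 := by
    have : a ^ 2 = 1 := by rw [h3]; linarith
    nlinarith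
  rw [ha1] at h1 h2
  exact ⟨θ, by linarith, by linarith⟩

theorem normal_form (g : E5 ≃ₗᵢ[ℝ] E5) {p : ℕ} (hp : p.Prime) (hp2 : p ≠ 2) (hg : g ≠ 1)
    (hgp : g ^ p = 1) : ∃ (U : E5 ≃ₗᵢ[ℝ] E5) (a b : ℤ), ¬ ((p : ℤ) ∣ a ∧ (p : ℤ) ∣ b) ∧
      ∀ x, U (g x) = rot (2 * Real.pi * a / p) (2 * Real.pi * b / p) (U x) := by
  have hodd : Odd p := hp.odd_of_ne_two hp2
  obtain ⟨v, l, hv, hT, hne⟩ := moved_vec g hg
  obtain ⟨e, he, hge⟩ := fixed_vec g hodd hgp
  have hvv : inner ℝ v v = (1 : ℝ) := by rw [real_inner_self_eq_norm_sq, hv, one_pow]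
  have hee : inner ℝ e e = (1 : ℝ) := by rw [real_inner_self_eq_norm_sq, he, one_pow]
  have hgvv : inner ℝ (g v) (g v) = (1 : ℝ) := by rw [g.inner_map_map, hvv]
  obtain ⟨c, hc⟩ : ∃ c : ℝ, c = inner ℝ v (g v) := ⟨_, rfl⟩
  have hl : l = 2 * c := by
    have h := congrArg (fun y => inner ℝ v y) hT
    simp only [inner_add_right, inner_smul_right, hvv] at h
    rw [← flip_inner, real_inner_comm v (g v), ← hc] at h
    linarith
  have hsv : g.symm v = (2 * c) • v - g v := by rw [← hl, ← hT]; abel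
  obtain ⟨z, hz⟩ : ∃ z, z = g v - c • v := ⟨_, rfl⟩
  have hz2 : ‖z‖ ^ 2 = 1 - c ^ 2 := by
    rw [← real_inner_self_eq_norm_sq, hz, inner_sub_left, inner_sub_right, inner_sub_right,
      inner_smul_left, inner_smul_right, inner_smul_left, inner_smul_right, hvv, hgvv,
      real_inner_comm v (g v), ← hc]
    simp
    ring
  have hz0 : z ≠ 0 := by
    intro h0
    have hgv : g v = c • v := by rw [hz] at h0; exact sub_eq_zero.mp h0
    rw [h0, norm_zero] at hz2
    have hc2 : (c - 1) * (c + 1) = 0 := by linarith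
    rcases mul_eq_zero.mp hc2 with h | h
    · exact hne (by rw [hgv, sub_eq_zero.mp h, one_smul])
    · have hcm : c = -1 := by linarith
      rw [hcm, neg_one_smul] at hgv
      have h2 : g (g v) = v := by rw [hgv, map_neg, hgv, neg_neg]
      exact hne (two_fix hodd hgp h2)
  obtain ⟨μ, hμ⟩ : ∃ μ, μ = ‖z‖ := ⟨_, rfl⟩
  have hμ0 : μ ≠ 0 := by rw [hμ]; exact norm_ne_zero_iff.mpr hz0
  rw [← hμ] at hz2
  obtain ⟨w, hw⟩ : ∃ w, w = μ⁻¹ • z := ⟨_, rfl⟩
  have hzw : z = μ • w := by rw [hw, smul_smul, mul_inv_cancel₀ hμ0, one_smul]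
  have hgv : g v = c • v + μ • w := by rw [← hzw, hz]; abel
  have hvz : inner ℝ v z = (0 : ℝ) := by
    rw [hz, inner_sub_right, inner_smul_right, hvv, ← hc]; ring
  have hvw : inner ℝ v w = (0 : ℝ) := by rw [hw, inner_smul_right, hvz, mul_zero]
  have hww : ‖w‖ = 1 := by
    rw [hw, norm_smul, norm_inv, ← hμ, Real.norm_of_nonneg (by rw [hμ]; exact norm_nonneg _),
      inv_mul_cancel₀ hμ0]
  have hsv' : g.symm v = c • v - μ • w := by rw [hsv, hgv, two_mul, add_smul]; abel
  have hggv : g (g v) = (2 * c) • g v - v := by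
    have h := congrArg g hsv
    rw [g.apply_symm_apply, map_sub, map_smul] at h
    rw [eq_sub_iff_add_eq, add_comm, ← eq_sub_iff_add_eq]
    exact h
  have hgw : g w = (-μ) • v + c • w := by
    have h1 : g (g v) = c • g v + μ • g w := by
      conv_lhs => rw [hgv]
      rw [map_add, map_smul, map_smul]
    have h2 : μ • g w = μ • ((-μ) • v + c • w) := by
      have h3 : μ • g w = (2 * c) • g v - v - c • g v := by rw [← hggv, h1]; abel
      rw [h3, hgv]
      have e1 : (2 * c) • (c • v + μ • w) - v - c • (c • v + μ • w) =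
          (c ^ 2 - 1) • v + (c * μ) • w := by module
      rw [e1, show c ^ 2 - 1 = -μ ^ 2 by linarith]
      module
    exact smul_right_injective _ hμ0 h2
  have hsw : g.symm w = μ • v + c • w := by
    rw [LinearIsometryEquiv.symm_apply_eq, map_add, map_smul, map_smul, hgv, hgw]
    have e1 : μ • (c • v + μ • w) + c • (-μ • v + c • w) = (μ ^ 2 + c ^ 2) • w := by module
    rw [e1, show μ ^ 2 + c ^ 2 = 1 by linarith, one_smul]
  have hse : g.symm e = e := by rw [LinearIsometryEquiv.symm_apply_eq, hge]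
  have hev : inner ℝ e v = (0 : ℝ) := by
    have h1 : inner ℝ e (g v) = inner ℝ e v := by
      conv_lhs => rw [← hge]
      exact g.inner_map_map e v
    have h2 : inner ℝ e (g.symm v) = inner ℝ e v := by rw [← flip_inner, hge]
    have h := congrArg (fun y => inner ℝ e y) hT
    simp only [inner_add_right, inner_smul_right, h1, h2] at h
    rw [hl] at h
    have h3 : (1 - c) * inner ℝ e v = 0 := by linarith
    have hc1 : 1 - c ≠ 0 := by
      intro h4
      have : μ ^ 2 = 0 := by rw [hz2, show c = 1 by linarith]; ring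
      exact hμ0 (pow_eq_zero_iff two_ne_zero |>.mp this)
    exact (mul_eq_zero.mp h3).resolve_left hc1
  have hew : inner ℝ e w = (0 : ℝ) := by
    have h1 : inner ℝ e (g v) = inner ℝ e v := by
      conv_lhs => rw [← hge]
      exact g.inner_map_map e v
    rw [hgv, inner_add_right, inner_smul_right, inner_smul_right, hev] at h1
    have h2 : μ * inner ℝ e w = 0 := by linarith
    exact (mul_eq_zero.mp h2).resolve_left hμ0
  -- the orthonormal basis
  have horth : Orthonormal ℝ (({0, 1, 4} : Set (Fin 5)).domRestrict (![v, w, 0, 0, e] : Fin 5 → E5)) := by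
    constructor
    · rintro ⟨i, hi⟩
      simp only [Set.mem_insert_iff, Set.mem_singleton_iff] at hi
      rcases hi with rfl | rfl | rfl
      · exact hv
      · exact hww
      · exact he
    · rintro ⟨i, hi⟩ ⟨j, hj⟩ hij
      simp only [Set.mem_insert_iff, Set.mem_singleton_iff] at hi hj
      rcases hi with rfl | rfl | rfl <;> rcases hj with rfl | rfl | rfl
      · exact absurd rfl hij
      · exact hvw
      · show inner ℝ v e = (0 : ℝ); rw [real_inner_comm]; exact hev
      · show inner ℝ w v = (0 : ℝ); rw [real_inner_comm]; exact hvw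
      · exact absurd rfl hij
      · show inner ℝ w e = (0 : ℝ); rw [real_inner_comm]; exact hew
      · exact hev
      · exact hew
      · exact absurd rfl hij
  obtain ⟨b, hb⟩ := horth.exists_orthonormalBasis_extension_of_card_eq
    (by rw [finrank_euclideanSpace_fin, Fintype.card_fin])
  have b0 : b 0 = v := hb 0 (by simp)
  have b1 : b 1 = w := hb 1 (by simp)
  have b4 : b 4 = e := hb 4 (by simp)
  have bij : ∀ i j, i ≠ j → inner ℝ (b i) (b j) = (0 : ℝ) := fun i j h => b.orthonormal.2 h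
  have z0 : ∀ j, j ≠ 0 → j ≠ 1 → inner ℝ (b 0) (g.symm (b j)) = (0 : ℝ) := by
    intro j h0 h1
    rw [← flip_inner, b0, hgv, ← b0, ← b1, inner_add_left, inner_smul_left, inner_smul_left,
      bij 0 j h0.symm, bij 1 j h1.symm]
    simp
  have z1 : ∀ j, j ≠ 0 → j ≠ 1 → inner ℝ (b 1) (g.symm (b j)) = (0 : ℝ) := by
    intro j h0 h1
    rw [← flip_inner, b1, hgw, ← b0, ← b1, inner_add_left, inner_smul_left, inner_smul_left,
      bij 0 j h0.symm, bij 1 j h1.symm]
    simp
  have z4 : ∀ j, j ≠ 4 → inner ℝ (b 4) (g.symm (b j)) = (0 : ℝ) := by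
    intro j h4
    rw [← flip_inner, b4, hge, ← b4, bij 4 j h4.symm]
  obtain ⟨γ, hγ⟩ : ∃ γ : ℝ, γ = inner ℝ (b 2) (g.symm (b 2)) := ⟨_, rfl⟩
  obtain ⟨σ, hσ⟩ : ∃ σ : ℝ, σ = inner ℝ (b 3) (g.symm (b 2)) := ⟨_, rfl⟩
  obtain ⟨γ', hγ'⟩ : ∃ γ' : ℝ, γ' = inner ℝ (b 2) (g.symm (b 3)) := ⟨_, rfl⟩
  obtain ⟨σ', hσ'⟩ : ∃ σ' : ℝ, σ' = inner ℝ (b 3) (g.symm (b 3)) := ⟨_, rfl⟩
  have x2 : g.symm (b 2) = γ • b 2 + σ • b 3 := by
    have h := b.sum_repr' (g.symm (b 2))
    rw [Fin.sum_univ_five, z0 2 (by decide) (by decide), z1 2 (by decide) (by decide),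
      z4 2 (by decide), ← hγ, ← hσ] at h
    rw [← h]; module
  have x3 : g.symm (b 3) = γ' • b 2 + σ' • b 3 := by
    have h := b.sum_repr' (g.symm (b 3))
    rw [Fin.sum_univ_five, z0 3 (by decide) (by decide), z1 3 (by decide) (by decide),
      z4 3 (by decide), ← hγ', ← hσ'] at h
    rw [← h]; module
  have n2 : inner ℝ (b 2) (b 2) = (1 : ℝ) := by
    rw [real_inner_self_eq_norm_sq, b.norm_eq_one, one_pow]
  have n3 : inner ℝ (b 3) (b 3) = (1 : ℝ) := by
    rw [real_inner_self_eq_norm_sq, b.norm_eq_one, one_pow]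
  have i23 := bij 2 3 (by decide)
  have i32 := bij 3 2 (by decide)
  have q1 : γ ^ 2 + σ ^ 2 = 1 := by
    have h : inner ℝ (g.symm (b 2)) (g.symm (b 2)) = (1 : ℝ) := by rw [g.symm.inner_map_map, n2]
    rw [x2] at h
    simp only [inner_add_left, inner_add_right, inner_smul_left, inner_smul_right, n2, n3, i23, i32,
      conj_trivial] at h
    linarith
  have q2 : γ' ^ 2 + σ' ^ 2 = 1 := by
    have h : inner ℝ (g.symm (b 3)) (g.symm (b 3)) = (1 : ℝ) := by rw [g.symm.inner_map_map, n3]
    rw [x3] at h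
    simp only [inner_add_left, inner_add_right, inner_smul_left, inner_smul_right, n2, n3, i23, i32,
      conj_trivial] at h
    linarith
  have q3 : γ * γ' + σ * σ' = 0 := by
    have h : inner ℝ (g.symm (b 2)) (g.symm (b 3)) = (0 : ℝ) := by rw [g.symm.inner_map_map, i23]
    rw [x2, x3] at h
    simp only [inner_add_left, inner_add_right, inner_smul_left, inner_smul_right, n2, n3, i23, i32,
      conj_trivial] at h
    linarith
  obtain ⟨D, hD⟩ : ∃ D, D = γ * σ' - σ * γ' := ⟨_, rfl⟩
  have hγD : γ' = -(σ * D) := by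
    rw [hD]; linear_combination (-γ') * q1 + γ * q3
  have hσD : σ' = γ * D := by
    rw [hD]; linear_combination (-σ') * q1 + σ * q3
  have hD2 : (D - 1) * (D + 1) = 0 := by
    rw [hγD, hσD] at q2
    linear_combination q2 - D ^ 2 * q1
  have hD1 : D = 1 := by
    rcases mul_eq_zero.mp hD2 with h | h
    · linarith
    · exfalso
      have hDm : D = -1 := by linarith
      rw [hDm] at hγD hσD
      have y2 : g.symm (g.symm (b 2)) = b 2 := by
        rw [x2, map_add, map_smul, map_smul, x2, x3, hγD, hσD]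
        have e1 : γ • (γ • b 2 + σ • b 3) + σ • (-(σ * -1) • b 2 + (γ * -1) • b 3) =
            (γ ^ 2 + σ ^ 2) • b 2 := by module
        rw [e1, q1, one_smul]
      have y3 : g.symm (g.symm (b 3)) = b 3 := by
        rw [x3, map_add, map_smul, map_smul, x2, x3, hγD, hσD]
        have e1 : (-(σ * -1)) • (γ • b 2 + σ • b 3) +
            (γ * -1) • ((-(σ * -1)) • b 2 + (γ * -1) • b 3) = (γ ^ 2 + σ ^ 2) • b 3 := by module
        rw [e1, q1, one_smul]
      have w2 : g (b 2) = b 2 := two_fix hodd hgp (by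
        rw [LinearIsometryEquiv.symm_apply_eq, LinearIsometryEquiv.symm_apply_eq] at y2
        exact y2.symm)
      have w3 : g (b 3) = b 3 := two_fix hodd hgp (by
        rw [LinearIsometryEquiv.symm_apply_eq, LinearIsometryEquiv.symm_apply_eq] at y3
        exact y3.symm)
      have u2 : γ = 1 := by
        rw [hγ, ← flip_inner, w2, n2]
      have u3 : σ' = 1 := by
        rw [hσ', ← flip_inner, w3, n3]
      rw [u2] at hσD
      linarith
  rw [hD1, mul_one] at hγD hσD
  obtain ⟨α, hα1, hα2⟩ := unit_polar (P := c) (Q := μ) (by linarith)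
  obtain ⟨β, hβ1, hβ2⟩ := unit_polar (P := γ) (Q := -σ) (by linarith)
  have hU : ∀ x, b.repr (g x) = rot α β (b.repr x) := by
    intro x
    have key : ∀ i, b.repr (g x) i = inner ℝ (g.symm (b i)) x := by
      intro i
      rw [OrthonormalBasis.repr_apply_apply, real_inner_comm, flip_inner, real_inner_comm]
    refine ext5 ?_ ?_ ?_ ?_ ?_
    · rw [key, rot_0, b0, hsv', inner_sub_left, inner_smul_left, inner_smul_left, hα1, hα2,
        OrthonormalBasis.repr_apply_apply, OrthonormalBasis.repr_apply_apply, b0, b1]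
      rfl
    · rw [key, rot_1, b1, hsw, inner_add_left, inner_smul_left, inner_smul_left, hα1, hα2,
        OrthonormalBasis.repr_apply_apply, OrthonormalBasis.repr_apply_apply, b0, b1]
      rfl
    · rw [key, rot_2, x2, inner_add_left, inner_smul_left, inner_smul_left, hβ1, hβ2,
        OrthonormalBasis.repr_apply_apply, OrthonormalBasis.repr_apply_apply]
      simp only [conj_trivial]
      ring
    · rw [key, rot_3, x3, hγD, hσD, inner_add_left, inner_smul_left, inner_smul_left, hβ1, hβ2,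
        OrthonormalBasis.repr_apply_apply, OrthonormalBasis.repr_apply_apply]
      simp only [conj_trivial]
    · rw [key, rot_4, b4, hse, OrthonormalBasis.repr_apply_apply, b4]
  have hit : ∀ k : ℕ, ∀ x, b.repr ((g ^ k) x) = rot (k * α) (k * β) (b.repr x) := by
    intro k
    induction k with
    | zero =>
      intro x
      rw [pow_zero, rot_of_one (by simp) (by simp)]
      rfl
    | succ k ih =>
      intro x
      rw [pow_succ']
      show b.repr (g ((g ^ k) x)) = _
      rw [hU, ih, rot_rot]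
      congr 1 <;> push_cast <;> ring
  have hper : ∀ y : E5, rot (p * α) (p * β) y = y := by
    intro y
    have h := hit p (b.repr.symm y)
    rw [hgp, LinearIsometryEquiv.apply_symm_apply] at h
    rw [← h]
    exact b.repr.apply_symm_apply y
  have hpr : (p : ℝ) ≠ 0 := by exact_mod_cast hp.ne_zero
  have cα : Real.cos (p * α) = 1 := by
    have h := congrArg (fun z : E5 => z 0) (hper (EuclideanSpace.single 0 1))
    simp only [rot_0] at h
    simpa using h
  have cβ : Real.cos (p * β) = 1 := by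
    have h := congrArg (fun z : E5 => z 2) (hper (EuclideanSpace.single 2 1))
    simp only [rot_2] at h
    simpa using h
  rw [Real.cos_eq_one_iff] at cα cβ
  obtain ⟨m, hm⟩ := cα
  obtain ⟨n, hn⟩ := cβ
  have eα : α = 2 * Real.pi * m / p := by
    rw [eq_div_iff hpr]; linarith
  have eβ : β = 2 * Real.pi * n / p := by
    rw [eq_div_iff hpr]; linarith
  refine ⟨b.repr, m, n, ?_, fun x => by rw [hU x, eα, eβ]⟩
  rintro ⟨hm', hn'⟩
  apply hg
  ext1 x
  apply b.repr.injective
  have hone : ∀ t : ℤ, (p : ℤ) ∣ t → Real.cos (2 * Real.pi * t / p) = 1 := by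
    intro t ht
    have := (ang_eq hp.pos (m := t) (n := 0) (by simpa using ht)).1
    rw [this]; simp
  rw [hU, rot_of_one (by rw [eα]; exact hone m hm') (by rw [eβ]; exact hone n hn')]
  rfl

end Pool.Agent.H66.KS
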