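import Pool.Agent.H16.KISS.Final

/-! # Kissing configurations of `ℝ ^ 5` with a symmetry: block rotations -/

set_option autoImplicit false

namespace Pool.Agent.H66.KS

open Finset Pool.Agent.H16.KISS

/-- rotation by the angle `α` in the plane of the first two coordinates and by `β` in the plane of the
next two; the last coordinate is fixed -/
noncomputable def rot (α β : ℝ) (x : EuclideanSpace ℝ (Fin 5)) : EuclideanSpace ℝ (Fin 5) :=
  !₂[Real.cos α * x 0 - Real.sin α * x 1, Real.sin α * x 0 + Real.cos α * x 1,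
    Real.cos β * x 2 - Real.sin β * x 3, Real.sin β * x 2 + Real.cos β * x 3, x 4]

theorem rot_0 (α β : ℝ) (x : E5) : rot α β x 0 = Real.cos α * x 0 - Real.sin α * x 1 := rfl
theorem rot_1 (α β : ℝ) (x : E5) : rot α β x 1 = Real.sin α * x 0 + Real.cos α * x 1 := rfl
theorem rot_2 (α β : ℝ) (x : E5) : rot α β x 2 = Real.cos β * x 2 - Real.sin β * x 3 := rfl
theorem rot_3 (α β : ℝ) (x : E5) : rot α β x 3 = Real.sin β * x 2 + Real.cos β * x 3 := rfl
theorem rot_4 (α β : ℝ) (x : E5) : rot α β x 4 = x 4 := rfl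

theorem ext5 {x y : E5} (h0 : x 0 = y 0) (h1 : x 1 = y 1) (h2 : x 2 = y 2) (h3 : x 3 = y 3)
    (h4 : x 4 = y 4) : x = y := by
  ext i
  fin_cases i <;> assumption

theorem rot_rot (α β α' β' : ℝ) (x : E5) :
    rot α β (rot α' β' x) = rot (α + α') (β + β') x := by
  refine ext5 ?_ ?_ ?_ ?_ ?_
  · rw [rot_0, rot_0, rot_1, rot_0, Real.cos_add, Real.sin_add]; ring
  · rw [rot_1, rot_0, rot_1, rot_1, Real.cos_add, Real.sin_add]; ring
  · rw [rot_2, rot_2, rot_3, rot_2, Real.cos_add, Real.sin_add]; ring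
  · rw [rot_3, rot_2, rot_3, rot_3, Real.cos_add, Real.sin_add]; ring
  · rw [rot_4, rot_4, rot_4]

theorem rot_of_one {α β : ℝ} (h1 : Real.cos α = 1) (h2 : Real.cos β = 1) (x : E5) :
    rot α β x = x := by
  have s1 : Real.sin α = 0 := by
    have := Real.sin_sq_add_cos_sq α
    rw [h1] at this
    nlinarith
  have s2 : Real.sin β = 0 := by
    have := Real.sin_sq_add_cos_sq β
    rw [h2] at this
    nlinarith
  refine ext5 ?_ ?_ ?_ ?_ ?_
  · rw [rot_0, h1, s1]; ring
  · rw [rot_1, h1, s1]; ring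
  · rw [rot_2, h2, s2]; ring
  · rw [rot_3, h2, s2]; ring
  · rw [rot_4]

theorem ip_rot (α β : ℝ) (x y : E5) : ip (rot α β x) y =
    Real.cos α * (x 0 * y 0 + x 1 * y 1) + Real.sin α * (x 0 * y 1 - x 1 * y 0) +
      (Real.cos β * (x 2 * y 2 + x 3 * y 3) + Real.sin β * (x 2 * y 3 - x 3 * y 2)) +
      x 4 * y 4 := by
  unfold ip
  rw [Fin.sum_univ_five, rot_0, rot_1, rot_2, rot_3, rot_4]
  ring

/-- a fixed point of a nontrivial rotation of the first plane -/
theorem fix01 {α β : ℝ} {x : E5} (h : rot α β x = x) (hα : Real.cos α ≠ 1) : x 0 = 0 ∧ x 1 = 0 := by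
  have a0 : Real.cos α * x 0 - Real.sin α * x 1 = x 0 := by rw [← rot_0 α β, h]
  have a1 : Real.sin α * x 0 + Real.cos α * x 1 = x 1 := by rw [← rot_1 α β, h]
  have hc := Real.sin_sq_add_cos_sq α
  have hlt : Real.cos α < 1 := lt_of_le_of_ne (Real.cos_le_one α) hα
  have e0 : 2 * (1 - Real.cos α) * x 0 = 0 := by
    linear_combination (Real.cos α - 1) * a0 + Real.sin α * a1 - x 0 * hc
  have e1 : 2 * (1 - Real.cos α) * x 1 = 0 := by
    linear_combination (Real.cos α - 1) * a1 - Real.sin α * a0 - x 1 * hc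
  have hne : 2 * (1 - Real.cos α) ≠ 0 := by
    have : 0 < 2 * (1 - Real.cos α) := by linarith
    exact this.ne'
  exact ⟨(mul_eq_zero.mp e0).resolve_left hne, (mul_eq_zero.mp e1).resolve_left hne⟩

theorem fix23 {α β : ℝ} {x : E5} (h : rot α β x = x) (hβ : Real.cos β ≠ 1) : x 2 = 0 ∧ x 3 = 0 := by
  have a0 : Real.cos β * x 2 - Real.sin β * x 3 = x 2 := by rw [← rot_2 α β, h]
  have a1 : Real.sin β * x 2 + Real.cos β * x 3 = x 3 := by rw [← rot_3 α β, h]
  have hc := Real.sin_sq_add_cos_sq β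
  have hlt : Real.cos β < 1 := lt_of_le_of_ne (Real.cos_le_one β) hβ
  have e0 : 2 * (1 - Real.cos β) * x 2 = 0 := by
    linear_combination (Real.cos β - 1) * a0 + Real.sin β * a1 - x 2 * hc
  have e1 : 2 * (1 - Real.cos β) * x 3 = 0 := by
    linear_combination (Real.cos β - 1) * a1 - Real.sin β * a0 - x 3 * hc
  have hne : 2 * (1 - Real.cos β) ≠ 0 := by
    have : 0 < 2 * (1 - Real.cos β) := by linarith
    exact this.ne'
  exact ⟨(mul_eq_zero.mp e0).resolve_left hne, (mul_eq_zero.mp e1).resolve_left hne⟩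

/-- iterates stay in an invariant set -/
theorem iter_mem {A : Finset E5} {α β : ℝ} (hA : ∀ x ∈ A, rot α β x ∈ A) (k : ℕ) {x : E5}
    (hx : x ∈ A) : rot (k * α) (k * β) x ∈ A := by
  induction k with
  | zero =>
    have : rot ((0 : ℕ) * α) ((0 : ℕ) * β) x = x :=
      rot_of_one (by simp) (by simp) x
    rw [this]; exact hx
  | succ k ih =>
    have h := hA _ ih
    rw [rot_rot] at h
    have e1 : α + (k : ℝ) * α = ((k + 1 : ℕ) : ℝ) * α := by push_cast; ring
    have e2 : β + (k : ℝ) * β = ((k + 1 : ℕ) : ℝ) * β := by push_cast; ring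
    rw [e1, e2] at h
    exact h

end Pool.Agent.H66.KS
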