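import Pool.Agent.H66.KS.Final
import Pool.Agent.H66.KS.Norm2

/-! # Kissing configurations of `ℝ ^ 5` invariant under an isometry of prime order -/

set_option autoImplicit false

namespace Pool.Agent.H66.KS

open Finset Pool.Agent.H16.KISS

theorem top (A : Finset (EuclideanSpace ℝ (Fin 5))) (hu : ∀ x ∈ A, ‖x‖ = 1)
    (hd : ∀ x ∈ A, ∀ y ∈ A, x ≠ y → 1 ≤ dist x y)
    (p : ℕ) (hp : p.Prime) (g : EuclideanSpace ℝ (Fin 5) ≃ₗᵢ[ℝ] EuclideanSpace ℝ (Fin 5))
    (hg : ∃ x, g x ≠ x) (hgp : ∀ x, g^[p] x = x) (hA : ∀ x ∈ A, g x ∈ A) :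
    (A.card = 44 → p = 2 ∨ p = 3 ∨ p = 7) ∧ (p = 11 → A.card ≤ 35) ∧
      (5 ≤ p → (∃ x y, g x = x ∧ g y = y ∧ LinearIndependent ℝ ![x, y]) → A.card ≤ 34) := by
  classical
  by_cases hp2 : p = 2
  · subst hp2
    exact ⟨fun _ => Or.inl rfl, fun h => absurd h (by norm_num), fun h => absurd h (by norm_num)⟩
  have hg1 : g ≠ 1 := by
    rintro rfl
    obtain ⟨x, hx⟩ := hg
    exact hx rfl
  have hgk : ∀ k : ℕ, ∀ x, (g ^ k) x = g^[k] x := by
    intro k
    induction k with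
    | zero => intro x; rfl
    | succ k ih =>
      intro x
      rw [pow_succ', Function.iterate_succ_apply', ← ih]
      rfl
  have hgp' : g ^ p = 1 := by
    ext1 x
    rw [hgk, hgp]
    rfl
  obtain ⟨U, a, b, hab, hU⟩ := normal_form g hp hp2 hg1 hgp'
  obtain ⟨B, hB⟩ : ∃ B, B = A.image U := ⟨_, rfl⟩
  have hcard : B.card = A.card := by
    rw [hB]; exact Finset.card_image_of_injective _ U.injective
  have h1 : ∀ x ∈ B, ip x x = 1 := by
    intro x hx
    rw [hB] at hx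
    obtain ⟨y, hy, rfl⟩ := Finset.mem_image.mp hx
    exact ip_self_of_norm (by rw [U.norm_map]; exact hu y hy)
  have h2 : ∀ x ∈ B, ∀ y ∈ B, x ≠ y → ip x y ≤ 1 / 2 := by
    intro x hx y hy hxy
    rw [hB] at hx hy
    obtain ⟨x', hx', rfl⟩ := Finset.mem_image.mp hx
    obtain ⟨y', hy', rfl⟩ := Finset.mem_image.mp hy
    refine ip_le_of_dist (by rw [U.norm_map]; exact hu x' hx') (by rw [U.norm_map]; exact hu y' hy') ?_
    rw [U.dist_map]
    exact hd x' hx' y' hy' fun h => hxy (by rw [h])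
  have hInv : Inv B p a b := by
    intro x hx
    rw [hB] at hx ⊢
    obtain ⟨y, hy, rfl⟩ := Finset.mem_image.mp hx
    rw [← hU y]
    exact Finset.mem_image_of_mem _ (hA y hy)
  have hone : ∀ m : ℤ, (p : ℤ) ∣ m → Real.cos (2 * Real.pi * m / p) = 1 := by
    intro m hm
    have := (ang_eq hp.pos (m := m) (n := 0) (by simpa using hm)).1
    rw [this]; simp
  have hsingle : 5 ≤ p → (p : ℤ) ∣ a ∨ (p : ℤ) ∣ b → B.card ≤ 34 := by
    intro hp5 h
    rcases h with h | h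
    · obtain ⟨s1, s2, s3⟩ := swap_facts h1 h2
      rw [← s3]
      exact single s1 s2 hp hp5 (fun hb => hab ⟨h, hb⟩) (hone a h) hInv.swap
    · exact single h1 h2 hp hp5 (fun ha => hab ⟨ha, h⟩) (hone b h) hInv
  rw [← hcard]
  refine ⟨fun h => main h1 h2 hp hab hInv h, ?_, ?_⟩
  · rintro rfl
    by_cases h : ((11 : ℕ) : ℤ) ∣ a ∨ ((11 : ℕ) : ℤ) ∣ b
    · exact (hsingle (by norm_num) h).trans (by norm_num)
    · push Not at h
      exact eleven h1 h2 (by exact_mod_cast h.1) (by exact_mod_cast h.2) hInv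
  · rintro hp5 ⟨x, y, hx, hy, hxy⟩
    by_cases h : (p : ℤ) ∣ a ∨ (p : ℤ) ∣ b
    · exact hsingle hp5 h
    · exfalso
      push Not at h
      have hpole : ∀ z, g z = z → U z 0 = 0 ∧ U z 1 = 0 ∧ U z 2 = 0 ∧ U z 3 = 0 := by
        intro z hz
        have e := hU z
        rw [hz] at e
        have u := fix01 e.symm (cos_ne_one hp.pos h.1)
        have v := fix23 e.symm (cos_ne_one hp.pos h.2)
        exact ⟨u.1, u.2, v.1, v.2⟩
      obtain ⟨a0, a1, a2, a3⟩ := hpole x hx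
      obtain ⟨b0, b1, b2, b3⟩ := hpole y hy
      rw [LinearIndependent.pair_iff] at hxy
      have hz : U y 4 • x + (-(U x 4)) • y = 0 := by
        apply U.injective
        rw [map_add, map_smul, map_smul, map_zero]
        refine ext5 ?_ ?_ ?_ ?_ ?_ <;> simp [a0, a1, a2, a3, b0, b1, b2, b3]
        ring
      obtain ⟨k1, k2⟩ := hxy _ _ hz
      have hx4 : U x 4 = 0 := by linarith
      have hx0 : x = 0 := by
        apply U.injective
        rw [map_zero]
        exact ext5 (by simpa using a0) (by simpa using a1) (by simpa using a2) (by simpa using a3)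
          (by simpa using hx4)
      obtain ⟨k3, _⟩ := hxy 1 0 (by rw [hx0]; simp)
      exact one_ne_zero k3

/-- the same for a map which preserves distances and the origin -/
theorem top' (A : Finset (EuclideanSpace ℝ (Fin 5))) (hu : ∀ x ∈ A, ‖x‖ = 1)
    (hd : ∀ x ∈ A, ∀ y ∈ A, x ≠ y → 1 ≤ dist x y)
    (p : ℕ) (hp : p.Prime) (g : EuclideanSpace ℝ (Fin 5) → EuclideanSpace ℝ (Fin 5))
    (hiso : ∀ x y, dist (g x) (g y) = dist x y) (h0 : g 0 = 0)
    (hg : ∃ x, g x ≠ x) (hgp : ∀ x, g^[p] x = x) (hA : ∀ x ∈ A, g x ∈ A) :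
    (A.card = 44 → p = 2 ∨ p = 3 ∨ p = 7) ∧ (p = 11 → A.card ≤ 35) ∧
      (5 ≤ p → (∃ x y, g x = x ∧ g y = y ∧ ‖x‖ = 1 ∧ ‖y‖ = 1 ∧ 0 < dist x y ∧ dist x y < 2) →
        A.card ≤ 34) := by
  obtain ⟨q, hq⟩ : ∃ q, p = q + 1 := ⟨p - 1, by have := hp.pos; omega⟩
  let e : E5 ≃ᵢ E5 := IsometryEquiv.mk' g (g^[q])
    (fun x => by have h := hgp x; rw [hq, Function.iterate_succ_apply'] at h; exact h)
    (Isometry.of_dist_eq hiso)
  have he : ∀ x, e x = g x := fun x => rfl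
  have h0' : e 0 = 0 := h0
  obtain ⟨G, hG⟩ : ∃ G : E5 ≃ₗᵢ[ℝ] E5, G = e.toRealLinearIsometryEquivOfMapZero h0' := ⟨_, rfl⟩
  have hGx : ∀ x, G x = g x := fun x => by
    rw [hG, IsometryEquiv.coe_toRealLinearIsometryEquivOfMapZero]; rfl
  have hGf : (fun x => G x) = g := funext hGx
  have hGp : ∀ x, (fun y => G y)^[p] x = x := by rw [hGf]; exact hgp
  obtain ⟨r1, r2, r3⟩ := top A hu hd p hp G (by obtain ⟨x, hx⟩ := hg; exact ⟨x, by rw [hGx]; exact hx⟩)
    hGp (fun x hx => by rw [hGx]; exact hA x hx)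
  refine ⟨r1, r2, ?_⟩
  rintro hp5 ⟨x, y, hx, hy, nx, ny, d0, d2⟩
  refine r3 hp5 ⟨x, y, by rw [hGx]; exact hx, by rw [hGx]; exact hy, ?_⟩
  have hxy : x ≠ y := fun h => by rw [h, dist_self] at d0; exact lt_irrefl _ d0
  have hxy' : x ≠ -y := fun h => by
    rw [h, dist_eq_norm, show -y - y = (-2 : ℝ) • y by module, norm_smul, ny] at d2
    norm_num at d2
  have hx0 : x ≠ 0 := fun h => by rw [h, norm_zero] at nx; exact zero_ne_one nx
  rw [LinearIndependent.pair_iff' hx0]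
  intro t ht
  have hn : |t| = 1 := by
    have := congrArg norm ht
    rwa [norm_smul, nx, ny, mul_one, Real.norm_eq_abs] at this
  rcases (abs_eq zero_le_one).mp hn with h | h
  · rw [h, one_smul] at ht; exact hxy ht
  · rw [h, neg_one_smul] at ht; exact hxy' (by rw [← ht, neg_neg])

end Pool.Agent.H66.KS
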