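import Pool.Agent.H66.KS.Double

/-! # A weighted average over the orbit of a rotation of order eleven in two planes -/

set_option autoImplicit false

namespace Pool.Agent.H66.KS

open Finset Pool.Agent.H16.KISS

theorem sum_cos {p : ℕ} (hp : 0 < p) {r : ℤ} (hr : ¬ (p : ℤ) ∣ r) (α : ℝ) :
    ∑ k ∈ Finset.range p, Real.cos (α + 2 * Real.pi * r * k / p) = 0 := by
  have hp' : (p : ℝ) ≠ 0 := by exact_mod_cast hp.ne'
  obtain ⟨g, hg⟩ : ∃ g, g = Real.pi * r / p := ⟨_, rfl⟩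
  have hsin : Real.sin g ≠ 0 := by
    intro h
    rw [Real.sin_eq_zero_iff] at h
    obtain ⟨n, hn⟩ := h
    have hpi := Real.pi_pos.ne'
    have e : (n : ℝ) * p = r := by
      rw [hg] at hn
      field_simp at hn
      linarith
    exact hr ⟨n, by rw [mul_comm]; exact_mod_cast e.symm⟩
  have e : ∀ k : ℕ, 2 * Real.sin g * Real.cos (α + 2 * Real.pi * r * k / p) =
      Real.sin (α - g + 2 * g * ((k + 1 : ℕ) : ℝ)) - Real.sin (α - g + 2 * g * (k : ℝ)) := by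
    intro k
    have e1 : α + 2 * Real.pi * r * k / p = α + 2 * g * k := by rw [hg]; ring
    have e2 : α - g + 2 * g * ((k + 1 : ℕ) : ℝ) = (α + 2 * g * k) + g := by push_cast; ring
    have e3 : α - g + 2 * g * (k : ℝ) = (α + 2 * g * k) - g := by ring
    rw [e1, e2, e3, Real.sin_add, Real.sin_sub]
    ring
  have h : 2 * Real.sin g * ∑ k ∈ Finset.range p, Real.cos (α + 2 * Real.pi * r * k / p) = 0 := by
    rw [Finset.mul_sum, Finset.sum_congr rfl fun k _ => e k,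
      Finset.sum_range_sub (fun k : ℕ => Real.sin (α - g + 2 * g * (k : ℝ)))]
    have e4 : α - g + 2 * g * (p : ℝ) = (α - g) + r * (2 * Real.pi) := by
      rw [hg]; field_simp
    rw [e4, Real.sin_add_int_mul_two_pi]
    simp
  exact (mul_eq_zero.mp h).resolve_left (mul_ne_zero two_ne_zero hsin)

/-- the sums of products -/
theorem prod_sum {p : ℕ} {b m n : ℤ} (θ φ : ℝ) :
    ∑ k ∈ Finset.range p, Real.cos (m * (θ + 2 * Real.pi * k / p)) *
      Real.cos (n * (φ + 2 * Real.pi * b * k / p)) =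
    1 / 2 * ∑ k ∈ Finset.range p, Real.cos ((m * θ + n * φ) + 2 * Real.pi * ((m + b * n : ℤ) : ℝ) * k / p) +
    1 / 2 * ∑ k ∈ Finset.range p, Real.cos ((m * θ - n * φ) + 2 * Real.pi * ((m - b * n : ℤ) : ℝ) * k / p) := by
  rw [Finset.mul_sum, Finset.mul_sum, ← Finset.sum_add_distrib]
  refine Finset.sum_congr rfl fun k _ => ?_
  have e1 : (m * θ + n * φ) + 2 * Real.pi * ((m + b * n : ℤ) : ℝ) * k / p =
      m * (θ + 2 * Real.pi * k / p) + n * (φ + 2 * Real.pi * b * k / p) := by push_cast; ring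
  have e2 : (m * θ - n * φ) + 2 * Real.pi * ((m - b * n : ℤ) : ℝ) * k / p =
      m * (θ + 2 * Real.pi * k / p) - n * (φ + 2 * Real.pi * b * k / p) := by push_cast; ring
  rw [e1, e2, Real.cos_add, Real.cos_sub]
  ring

theorem prod_zero {p : ℕ} (hp : 0 < p) {b m n : ℤ} (h1 : ¬ (p : ℤ) ∣ m + b * n)
    (h2 : ¬ (p : ℤ) ∣ m - b * n) (θ φ : ℝ) :
    ∑ k ∈ Finset.range p, Real.cos (m * (θ + 2 * Real.pi * k / p)) *
      Real.cos (n * (φ + 2 * Real.pi * b * k / p)) = 0 := by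
  rw [prod_sum, sum_cos hp h1, sum_cos hp h2]
  ring

theorem prod_le {p : ℕ} (hp : 0 < p) {b m n : ℤ}
    (h : ¬ (p : ℤ) ∣ m + b * n ∨ ¬ (p : ℤ) ∣ m - b * n) (θ φ : ℝ) :
    -(p / 2 : ℝ) ≤ ∑ k ∈ Finset.range p, Real.cos (m * (θ + 2 * Real.pi * k / p)) *
      Real.cos (n * (φ + 2 * Real.pi * b * k / p)) := by
  have hb : ∀ f : ℕ → ℝ, -(p : ℝ) ≤ ∑ k ∈ Finset.range p, Real.cos (f k) := by
    intro f
    have : ∑ k ∈ Finset.range p, (-1 : ℝ) ≤ ∑ k ∈ Finset.range p, Real.cos (f k) :=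
      Finset.sum_le_sum fun k _ => Real.neg_one_le_cos _
    simpa using this
  rw [prod_sum]
  rcases h with h | h
  · rw [sum_cos hp h]
    have := hb fun k => (m * θ - n * φ) + 2 * Real.pi * ((m - b * n : ℤ) : ℝ) * k / p
    linarith
  · rw [sum_cos hp h]
    have := hb fun k => (m * θ + n * φ) + 2 * Real.pi * ((m + b * n : ℤ) : ℝ) * k / p
    linarith

/-- the main inequality for `b = ± 3` -/
theorem wt_three {b : ℤ} (hb : b = 3 ∨ b = -3) {θ φ A B M : ℝ} (hA : 0 ≤ A) (hB : 0 ≤ B)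
    (h : ∀ k ∈ Finset.range 11, A * Real.cos (θ + 2 * Real.pi * k / 11) +
      B * Real.cos (φ + 2 * Real.pi * b * k / 11) ≤ M) :
    5 / 4 * A + 23 / 16 * B ≤ 9 / 4 * M := by
  obtain ⟨X, hX⟩ : ∃ X : ℕ → ℝ, X = fun k : ℕ => θ + 2 * Real.pi * k / 11 := ⟨_, rfl⟩
  obtain ⟨Y, hY⟩ : ∃ Y : ℕ → ℝ, Y = fun k : ℕ => φ + 2 * Real.pi * b * k / 11 := ⟨_, rfl⟩
  have hS : ∀ m n : ℤ, (∑ k ∈ Finset.range 11, Real.cos (m * (θ + 2 * Real.pi * k / (11 : ℕ))) *
      Real.cos (n * (φ + 2 * Real.pi * b * k / (11 : ℕ)))) =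
      ∑ k ∈ Finset.range 11, Real.cos (m * X k) * Real.cos (n * Y k) := by
    intro m n
    rw [hX, hY]
    push_cast
    rfl
  have z : ∀ m n : ℤ, ¬ ((11 : ℕ) : ℤ) ∣ m + b * n → ¬ ((11 : ℕ) : ℤ) ∣ m - b * n →
      ∑ k ∈ Finset.range 11, Real.cos (m * X k) * Real.cos (n * Y k) = 0 := by
    intro m n h1 h2
    rw [← hS]
    exact prod_zero (by norm_num) h1 h2 θ φ
  have z' : ∀ m n : ℤ, (¬ ((11 : ℕ) : ℤ) ∣ m + b * n ∨ ¬ ((11 : ℕ) : ℤ) ∣ m - b * n) →
      -(11 / 2 : ℝ) ≤ ∑ k ∈ Finset.range 11, Real.cos (m * X k) * Real.cos (n * Y k) := by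
    intro m n h1
    rw [← hS]
    have := prod_le (p := 11) (by norm_num) h1 θ φ
    exact_mod_cast this
  have hid : ∀ k, (1 + Real.cos (X k)) ^ 2 * (1 + Real.cos (Y k)) ^ 2 *
      (M - (A * Real.cos (X k) + B * Real.cos (Y k))) =
      (M * (9 / 4) - A * (3 / 2) - B * (3 / 2)) * (Real.cos ((0 : ℤ) * X k) * Real.cos ((0 : ℤ) * Y k)) +
      (M * 3 - A * (21 / 8) - B * 2) * (Real.cos ((1 : ℤ) * X k) * Real.cos ((0 : ℤ) * Y k)) +
      (M * 3 - A * 2 - B * (21 / 8)) * (Real.cos ((0 : ℤ) * X k) * Real.cos ((1 : ℤ) * Y k)) +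
      (M * (3 / 4) - A * (3 / 2) - B * (1 / 2)) * (Real.cos ((2 : ℤ) * X k) * Real.cos ((0 : ℤ) * Y k)) +
      (M * (3 / 4) - A * (1 / 2) - B * (3 / 2)) * (Real.cos ((0 : ℤ) * X k) * Real.cos ((2 : ℤ) * Y k)) +
      (M * 4 - A * (7 / 2) - B * (7 / 2)) * (Real.cos ((1 : ℤ) * X k) * Real.cos ((1 : ℤ) * Y k)) +
      (M * 1 - A * (7 / 8) - B * 2) * (Real.cos ((1 : ℤ) * X k) * Real.cos ((2 : ℤ) * Y k)) +
      (M * 1 - A * 2 - B * (7 / 8)) * (Real.cos ((2 : ℤ) * X k) * Real.cos ((1 : ℤ) * Y k)) +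
      (M * (1 / 4) - A * (1 / 2) - B * (1 / 2)) * (Real.cos ((2 : ℤ) * X k) * Real.cos ((2 : ℤ) * Y k)) +
      (-A * (3 / 8)) * (Real.cos ((3 : ℤ) * X k) * Real.cos ((0 : ℤ) * Y k)) +
      (-A * (1 / 2)) * (Real.cos ((3 : ℤ) * X k) * Real.cos ((1 : ℤ) * Y k)) +
      (-A * (1 / 8)) * (Real.cos ((3 : ℤ) * X k) * Real.cos ((2 : ℤ) * Y k)) +
      (-B * (3 / 8)) * (Real.cos ((0 : ℤ) * X k) * Real.cos ((3 : ℤ) * Y k)) +
      (-B * (1 / 2)) * (Real.cos ((1 : ℤ) * X k) * Real.cos ((3 : ℤ) * Y k)) +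
      (-B * (1 / 8)) * (Real.cos ((2 : ℤ) * X k) * Real.cos ((3 : ℤ) * Y k)) := by
    intro k
    push_cast
    rw [zero_mul, zero_mul, one_mul, one_mul, Real.cos_zero, Real.cos_two_mul, Real.cos_two_mul,
      Real.cos_three_mul, Real.cos_three_mul]
    ring
  have hsum : 0 ≤ ∑ k ∈ Finset.range 11, (1 + Real.cos (X k)) ^ 2 * (1 + Real.cos (Y k)) ^ 2 *
      (M - (A * Real.cos (X k) + B * Real.cos (Y k))) := by
    refine Finset.sum_nonneg fun k hk => mul_nonneg (by positivity) ?_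
    have := h k hk
    rw [hX, hY]
    exact sub_nonneg.mpr this
  rw [Finset.sum_congr rfl fun k _ => hid k] at hsum
  simp only [Finset.sum_add_distrib, ← Finset.mul_sum] at hsum
  have h00 : ∑ k ∈ Finset.range 11, Real.cos (((0 : ℤ) : ℝ) * X k) * Real.cos (((0 : ℤ) : ℝ) * Y k) =
      11 := by
    simp
  have h31 := z' 3 1 (by rcases hb with rfl | rfl <;> decide)
  have h23 := z' 2 3 (by rcases hb with rfl | rfl <;> decide)
  rw [h00, z 1 0 (by rcases hb with rfl | rfl <;> decide) (by rcases hb with rfl | rfl <;> decide),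
    z 0 1 (by rcases hb with rfl | rfl <;> decide) (by rcases hb with rfl | rfl <;> decide),
    z 2 0 (by rcases hb with rfl | rfl <;> decide) (by rcases hb with rfl | rfl <;> decide),
    z 0 2 (by rcases hb with rfl | rfl <;> decide) (by rcases hb with rfl | rfl <;> decide),
    z 1 1 (by rcases hb with rfl | rfl <;> decide) (by rcases hb with rfl | rfl <;> decide),
    z 1 2 (by rcases hb with rfl | rfl <;> decide) (by rcases hb with rfl | rfl <;> decide),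
    z 2 1 (by rcases hb with rfl | rfl <;> decide) (by rcases hb with rfl | rfl <;> decide),
    z 2 2 (by rcases hb with rfl | rfl <;> decide) (by rcases hb with rfl | rfl <;> decide),
    z 3 0 (by rcases hb with rfl | rfl <;> decide) (by rcases hb with rfl | rfl <;> decide),
    z 3 2 (by rcases hb with rfl | rfl <;> decide) (by rcases hb with rfl | rfl <;> decide),
    z 0 3 (by rcases hb with rfl | rfl <;> decide) (by rcases hb with rfl | rfl <;> decide),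
    z 1 3 (by rcases hb with rfl | rfl <;> decide) (by rcases hb with rfl | rfl <;> decide)] at hsum
  nlinarith

/-- the main inequality for `b = ± 2` -/
theorem wt_two {b : ℤ} (hb : b = 2 ∨ b = -2) {θ φ A B M : ℝ}
    (h : ∀ k ∈ Finset.range 11, A * Real.cos (θ + 2 * Real.pi * k / 11) +
      B * Real.cos (φ + 2 * Real.pi * b * k / 11) ≤ M) : B ≤ 3 / 2 * M := by
  obtain ⟨X, hX⟩ : ∃ X : ℕ → ℝ, X = fun k : ℕ => θ + 2 * Real.pi * k / 11 := ⟨_, rfl⟩
  obtain ⟨Y, hY⟩ : ∃ Y : ℕ → ℝ, Y = fun k : ℕ => φ + 2 * Real.pi * b * k / 11 := ⟨_, rfl⟩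
  have hS : ∀ m n : ℤ, (∑ k ∈ Finset.range 11, Real.cos (m * (θ + 2 * Real.pi * k / (11 : ℕ))) *
      Real.cos (n * (φ + 2 * Real.pi * b * k / (11 : ℕ)))) =
      ∑ k ∈ Finset.range 11, Real.cos (m * X k) * Real.cos (n * Y k) := by
    intro m n
    rw [hX, hY]
    push_cast
    rfl
  have z : ∀ m n : ℤ, ¬ ((11 : ℕ) : ℤ) ∣ m + b * n → ¬ ((11 : ℕ) : ℤ) ∣ m - b * n →
      ∑ k ∈ Finset.range 11, Real.cos (m * X k) * Real.cos (n * Y k) = 0 := by
    intro m n h1 h2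
    rw [← hS]
    exact prod_zero (by norm_num) h1 h2 θ φ
  have hid : ∀ k, (1 + Real.cos (Y k)) ^ 2 *
      (M - (A * Real.cos (X k) + B * Real.cos (Y k))) =
      (M * (3 / 2) - B) * (Real.cos ((0 : ℤ) * X k) * Real.cos ((0 : ℤ) * Y k)) +
      (M * 2 - B * (7 / 4)) * (Real.cos ((0 : ℤ) * X k) * Real.cos ((1 : ℤ) * Y k)) +
      (M * (1 / 2) - B) * (Real.cos ((0 : ℤ) * X k) * Real.cos ((2 : ℤ) * Y k)) +
      (-B * (1 / 4)) * (Real.cos ((0 : ℤ) * X k) * Real.cos ((3 : ℤ) * Y k)) +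
      (-A * (3 / 2)) * (Real.cos ((1 : ℤ) * X k) * Real.cos ((0 : ℤ) * Y k)) +
      (-A * 2) * (Real.cos ((1 : ℤ) * X k) * Real.cos ((1 : ℤ) * Y k)) +
      (-A * (1 / 2)) * (Real.cos ((1 : ℤ) * X k) * Real.cos ((2 : ℤ) * Y k)) := by
    intro k
    push_cast
    rw [zero_mul, zero_mul, one_mul, one_mul, Real.cos_zero, Real.cos_two_mul, Real.cos_three_mul]
    ring
  have hsum : 0 ≤ ∑ k ∈ Finset.range 11, (1 + Real.cos (Y k)) ^ 2 *
      (M - (A * Real.cos (X k) + B * Real.cos (Y k))) := by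
    refine Finset.sum_nonneg fun k hk => mul_nonneg (by positivity) ?_
    have := h k hk
    rw [hX, hY]
    exact sub_nonneg.mpr this
  rw [Finset.sum_congr rfl fun k _ => hid k] at hsum
  simp only [Finset.sum_add_distrib, ← Finset.mul_sum] at hsum
  have h00 : ∑ k ∈ Finset.range 11, Real.cos (((0 : ℤ) : ℝ) * X k) * Real.cos (((0 : ℤ) : ℝ) * Y k) =
      11 := by
    simp
  rw [h00, z 0 1 (by rcases hb with rfl | rfl <;> decide) (by rcases hb with rfl | rfl <;> decide),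
    z 0 2 (by rcases hb with rfl | rfl <;> decide) (by rcases hb with rfl | rfl <;> decide),
    z 0 3 (by rcases hb with rfl | rfl <;> decide) (by rcases hb with rfl | rfl <;> decide),
    z 1 0 (by rcases hb with rfl | rfl <;> decide) (by rcases hb with rfl | rfl <;> decide),
    z 1 1 (by rcases hb with rfl | rfl <;> decide) (by rcases hb with rfl | rfl <;> decide),
    z 1 2 (by rcases hb with rfl | rfl <;> decide) (by rcases hb with rfl | rfl <;> decide)] at hsum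
  linarith

end Pool.Agent.H66.KS
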